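import Pool.Agent.T6.H33.HM.Schur

/-!
# The commutator of a matrix with its adjoint controls the distance to the normal matrices
-/

set_option autoImplicit false

open Matrix Finset

namespace Pool.Agent.T6.H33.HM

variable {n : ℕ}

/-- the squared Frobenius norm -/
noncomputable def fsq (M : Matrix (Fin n) (Fin n) ℂ) : ℝ := ∑ i, ∑ j, Complex.normSq (M i j)

theorem fsq_nonneg (M : Matrix (Fin n) (Fin n) ℂ) : 0 ≤ fsq M :=
  sum_nonneg fun _ _ => sum_nonneg fun _ _ => Complex.normSq_nonneg _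

theorem trace_mul_conjTranspose (M : Matrix (Fin n) (Fin n) ℂ) :
    (M * Mᴴ).trace = (fsq M : ℂ) := by
  unfold fsq Matrix.trace
  push_cast
  refine sum_congr rfl fun i _ => ?_
  rw [Matrix.diag_apply, Matrix.mul_apply]
  refine sum_congr rfl fun j _ => ?_
  rw [Matrix.conjTranspose_apply, Complex.normSq_eq_conj_mul_self, mul_comm]
  rfl

/-- the sum of the squares of the absolute values of the eigenvalues -/
noncomputable def lsq (M : Matrix (Fin n) (Fin n) ℂ) : ℝ := (M.charpoly.roots.map Complex.normSq).sum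

/-- the commutator with the adjoint -/
def cm (M : Matrix (Fin n) (Fin n) ℂ) : Matrix (Fin n) (Fin n) ℂ := M * Mᴴ - Mᴴ * M

theorem cm_diag (T : Matrix (Fin n) (Fin n) ℂ) (i : Fin n) :
    cm T i i = ((∑ j, Complex.normSq (T i j) - ∑ j, Complex.normSq (T j i) : ℝ) : ℂ) := by
  unfold cm
  rw [Matrix.sub_apply, Matrix.mul_apply, Matrix.mul_apply]
  push_cast
  congr 1
  · refine sum_congr rfl fun j _ => ?_
    rw [Matrix.conjTranspose_apply, Complex.normSq_eq_conj_mul_self, mul_comm]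
    rfl
  · refine sum_congr rfl fun j _ => ?_
    rw [Matrix.conjTranspose_apply, Complex.normSq_eq_conj_mul_self]
    rfl

theorem tri_ineq (T : Matrix (Fin n) (Fin n) ℂ) (hT : ∀ i j : Fin n, j < i → T i j = 0) :
    ∑ i, Complex.normSq (T i i) ≤ fsq T ∧
    (fsq T - ∑ i, Complex.normSq (T i i)) ^ 2 ≤ (n : ℝ) ^ 3 * fsq (cm T) := by
  set a : Fin n → Fin n → ℝ := fun i j => Complex.normSq (T i j) with ha
  have ha0 : ∀ i j, 0 ≤ a i j := fun i j => Complex.normSq_nonneg _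
  have haz : ∀ i j : Fin n, j < i → a i j = 0 := by
    intro i j h
    simp only [ha]
    rw [hT i j h, map_zero]
  set O : ℝ := ∑ i, ∑ j, if i = j then 0 else a i j with hO
  have h1 : fsq T = ∑ i, a i i + O := by
    unfold fsq
    rw [hO, ← sum_add_distrib]
    refine sum_congr rfl fun i _ => ?_
    have : ∀ j, a i j = (if i = j then a i i else 0) + (if i = j then 0 else a i j) := by
      intro j
      split_ifs with h
      · rw [← h, add_zero]
      · rw [zero_add]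
    calc ∑ j, Complex.normSq (T i j) = ∑ j, a i j := rfl
      _ = ∑ j, ((if i = j then a i i else 0) + (if i = j then 0 else a i j)) :=
          sum_congr rfl fun j _ => this j
      _ = _ := by
          rw [sum_add_distrib, sum_ite_eq, if_pos (mem_univ i)]
  have hO0 : 0 ≤ O := by
    rw [hO]
    refine sum_nonneg fun i _ => sum_nonneg fun j _ => ?_
    split_ifs
    · exact le_rfl
    · exact ha0 i j
  have h2 : ∑ i, Complex.normSq (T i i) = ∑ i, a i i := rfl
  rw [h2, h1]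
  refine ⟨by linarith, ?_⟩
  have h3 : ∑ i, a i i + O - ∑ i, a i i = O := by ring
  rw [h3]
  set d : Fin n → ℝ := fun i => ∑ j, a i j - ∑ j, a j i with hd
  have h4 : O ≤ ∑ i : Fin n, ((n : ℝ) - ((i : ℕ) : ℝ)) * d i := by
    have e1 : ∑ i : Fin n, ((n : ℝ) - ((i : ℕ) : ℝ)) * d i = ∑ i : Fin n, ∑ j : Fin n, (((j : ℕ) : ℝ) - ((i : ℕ) : ℝ)) * a i j := by
      have e2 : ∑ i : Fin n, ((n : ℝ) - ((i : ℕ) : ℝ)) * d i =
          ∑ i : Fin n, ∑ j, ((n : ℝ) - ((i : ℕ) : ℝ)) * a i j - ∑ i : Fin n, ∑ j, ((n : ℝ) - ((i : ℕ) : ℝ)) * a j i := by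
        rw [← sum_sub_distrib]
        refine sum_congr rfl fun i _ => ?_
        rw [← mul_sum, ← mul_sum, ← mul_sub]
      rw [e2, sum_comm (f := fun (i j : Fin n) => ((n : ℝ) - ((i : ℕ) : ℝ)) * a j i), ← sum_sub_distrib]
      refine sum_congr rfl fun i _ => ?_
      rw [← sum_sub_distrib]
      refine sum_congr rfl fun j _ => ?_
      ring
    rw [e1, hO]
    refine sum_le_sum fun i _ => sum_le_sum fun j _ => ?_
    split_ifs with h
    · rw [h]
      simp
    · rcases lt_or_gt_of_ne h with h' | h'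
      · have : (1 : ℝ) ≤ ((j : ℕ) : ℝ) - ((i : ℕ) : ℝ) := by
          have h5 : (i : ℕ) + 1 ≤ (j : ℕ) := h'
          have h6 : ((i : ℕ) : ℝ) + 1 ≤ ((j : ℕ) : ℝ) := by exact_mod_cast h5
          linarith
        nlinarith [ha0 i j]
      · rw [haz i j h', mul_zero]
  have h5 : ∑ i : Fin n, ((n : ℝ) - ((i : ℕ) : ℝ)) * d i ≤ ∑ i, (n : ℝ) * |d i| := by
    refine sum_le_sum fun i _ => ?_
    have h6 : (0 : ℝ) ≤ (n : ℝ) - (i : ℕ) := by
      have : ((i : ℕ) : ℝ) ≤ (n : ℝ) := by exact_mod_cast i.2.le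
      linarith
    have h7 : (n : ℝ) - (i : ℕ) ≤ n := by
      have : (0 : ℝ) ≤ ((i : ℕ) : ℝ) := Nat.cast_nonneg _
      linarith
    calc ((n : ℝ) - ((i : ℕ) : ℝ)) * d i ≤ ((n : ℝ) - ((i : ℕ) : ℝ)) * |d i| :=
          mul_le_mul_of_nonneg_left (le_abs_self _) h6
      _ ≤ (n : ℝ) * |d i| := mul_le_mul_of_nonneg_right h7 (abs_nonneg _)
  have h6 : O ≤ (n : ℝ) * ∑ i, |d i| := by
    rw [mul_sum]
    exact h4.trans h5
  have h7 : (∑ i, |d i|) ^ 2 ≤ (n : ℝ) * ∑ i, |d i| ^ 2 := by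
    have := sq_sum_le_card_mul_sum_sq (s := (univ : Finset (Fin n))) (f := fun i => |d i|)
    simpa using this
  have h8 : ∑ i, |d i| ^ 2 ≤ fsq (cm T) := by
    unfold fsq
    refine sum_le_sum fun i _ => ?_
    have : |d i| ^ 2 = Complex.normSq (cm T i i) := by
      rw [cm_diag, Complex.normSq_ofReal, sq_abs]
      simp only [hd, ha]
      ring
    rw [this]
    exact single_le_sum (f := fun j => Complex.normSq (cm T i j))
      (fun j _ => Complex.normSq_nonneg _) (mem_univ i)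
  have hn0 : (0 : ℝ) ≤ n := Nat.cast_nonneg _
  calc O ^ 2 ≤ ((n : ℝ) * ∑ i, |d i|) ^ 2 := pow_le_pow_left₀ hO0 h6 2
    _ = (n : ℝ) ^ 2 * (∑ i, |d i|) ^ 2 := by ring
    _ ≤ (n : ℝ) ^ 2 * ((n : ℝ) * ∑ i, |d i| ^ 2) := mul_le_mul_of_nonneg_left h7 (by positivity)
    _ ≤ (n : ℝ) ^ 2 * ((n : ℝ) * fsq (cm T)) := by gcongr
    _ = (n : ℝ) ^ 3 * fsq (cm T) := by ring

/-- unitary conjugation -/
theorem fsq_conj {U : Matrix (Fin n) (Fin n) ℂ} (h : U * Uᴴ = 1)
    (M : Matrix (Fin n) (Fin n) ℂ) : fsq (Uᴴ * M * U) = fsq M := by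
  have h1 : ((fsq (Uᴴ * M * U) : ℝ) : ℂ) = (fsq M : ℂ) := by
    rw [← trace_mul_conjTranspose, ← trace_mul_conjTranspose]
    rw [Matrix.conjTranspose_mul, Matrix.conjTranspose_mul, Matrix.conjTranspose_conjTranspose]
    have : Uᴴ * M * U * (Uᴴ * (Mᴴ * U)) = Uᴴ * (M * Mᴴ * U) := by
      calc Uᴴ * M * U * (Uᴴ * (Mᴴ * U)) = Uᴴ * M * (U * Uᴴ) * (Mᴴ * U) := by
            simp only [Matrix.mul_assoc]
        _ = _ := by rw [h, Matrix.mul_one]; simp only [Matrix.mul_assoc]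
    rw [this, Matrix.trace_mul_comm, Matrix.mul_assoc, h, Matrix.mul_one]
  exact_mod_cast h1

theorem cm_conj {U : Matrix (Fin n) (Fin n) ℂ} (h : U * Uᴴ = 1)
    (M : Matrix (Fin n) (Fin n) ℂ) : cm (Uᴴ * M * U) = Uᴴ * cm M * U := by
  unfold cm
  rw [Matrix.conjTranspose_mul, Matrix.conjTranspose_mul, Matrix.conjTranspose_conjTranspose]
  have h1 : Uᴴ * M * U * (Uᴴ * (Mᴴ * U)) = Uᴴ * (M * Mᴴ) * U := by
    calc Uᴴ * M * U * (Uᴴ * (Mᴴ * U)) = Uᴴ * M * (U * Uᴴ) * (Mᴴ * U) := by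
          simp only [Matrix.mul_assoc]
      _ = _ := by rw [h, Matrix.mul_one]; simp only [Matrix.mul_assoc]
  have h2 : Uᴴ * (Mᴴ * U) * (Uᴴ * M * U) = Uᴴ * (Mᴴ * M) * U := by
    calc Uᴴ * (Mᴴ * U) * (Uᴴ * M * U) = Uᴴ * Mᴴ * (U * Uᴴ) * (M * U) := by
          simp only [Matrix.mul_assoc]
      _ = _ := by rw [h, Matrix.mul_one]; simp only [Matrix.mul_assoc]
  rw [h1, h2, Matrix.mul_sub, Matrix.sub_mul]

/-- **The commutator with the adjoint controls the deviation from normality.** -/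
theorem comm_ineq (M : Matrix (Fin n) (Fin n) ℂ) :
    lsq M ≤ fsq M ∧ (fsq M - lsq M) ^ 2 ≤ (n : ℝ) ^ 3 * fsq (cm M) := by
  obtain ⟨U, _, h2, h3, h4⟩ := schur M
  obtain ⟨h5, h6⟩ := tri_ineq (Uᴴ * M * U) h3
  have h7 : lsq M = ∑ i, Complex.normSq ((Uᴴ * M * U) i i) := by
    unfold lsq
    rw [h4, Multiset.map_map]
    rfl
  rw [cm_conj h2, fsq_conj h2, fsq_conj h2, ← h7] at h6
  rw [fsq_conj h2, ← h7] at h5
  exact ⟨h5, h6⟩

/-- If a matrix has a multiple eigenvalue whose eigenspace is a line, then it is not normal in any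
scalar product, in the following strong sense. -/
theorem strict_ineq (M : Matrix (Fin n) (Fin n) ℂ) (c : ℂ) (h2 : 2 ≤ M.charpoly.roots.count c)
    (h1 : ∀ v w : Fin n → ℂ, M *ᵥ v = c • v → M *ᵥ w = c • w →
      ∃ a b : ℂ, (a ≠ 0 ∨ b ≠ 0) ∧ a • v + b • w = 0) :
    lsq M < fsq M := by
  obtain ⟨U, hU1, hU2, h3, h4⟩ := schur M
  obtain ⟨h5, _⟩ := tri_ineq (Uᴴ * M * U) h3
  have h7 : lsq M = ∑ i, Complex.normSq ((Uᴴ * M * U) i i) := by
    unfold lsq
    rw [h4, Multiset.map_map]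
    rfl
  refine lt_of_le_of_ne (comm_ineq M).1 fun heq => ?_
  set T := Uᴴ * M * U with hT
  have h8 : fsq T = ∑ i, Complex.normSq (T i i) := by
    rw [← h7, heq, hT, fsq_conj hU2]
  -- all entries off the diagonal vanish
  have h9 : ∀ i j, i ≠ j → T i j = 0 := by
    intro i j hij
    by_contra hne
    have e1 : ∀ k, Complex.normSq (T k k) ≤ ∑ l, Complex.normSq (T k l) := fun k =>
      single_le_sum (f := fun l => Complex.normSq (T k l))
        (fun l _ => Complex.normSq_nonneg _) (mem_univ k)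
    have e2 : Complex.normSq (T i i) < ∑ l, Complex.normSq (T i l) := by
      have : Complex.normSq (T i i) + Complex.normSq (T i j) ≤ ∑ l, Complex.normSq (T i l) := by
        have e3 := sum_le_sum_of_subset_of_nonneg (f := fun l => Complex.normSq (T i l))
          (subset_univ ({i, j} : Finset (Fin n))) (fun l _ _ => Complex.normSq_nonneg _)
        rwa [sum_pair hij] at e3
      have e4 : 0 < Complex.normSq (T i j) := Complex.normSq_pos.2 hne
      linarith
    have : ∑ k, Complex.normSq (T k k) < fsq T := by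
      unfold fsq
      exact sum_lt_sum (fun k _ => e1 k) ⟨i, mem_univ i, e2⟩
    rw [h8] at this
    exact lt_irrefl _ this
  -- two indices with diagonal entry `c`
  rw [h4, Multiset.count_map] at h2
  have h10 : ∃ i j : Fin n, i ≠ j ∧ T i i = c ∧ T j j = c := by
    have e1 : 1 < (Finset.univ.filter fun i => c = T i i).card := by
      have : (Finset.univ.filter fun i => c = T i i).card =
          Multiset.card (Multiset.filter (fun i => c = T i i) Finset.univ.val) := rfl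
      rw [this]
      exact h2
    obtain ⟨i, hi, j, hj, hij⟩ := Finset.one_lt_card.1 e1
    exact ⟨i, j, hij, (mem_filter.1 hi).2.symm, (mem_filter.1 hj).2.symm⟩
  obtain ⟨i, j, hij, hi, hj⟩ := h10
  have hMU : M * U = U * T := by
    rw [hT, ← Matrix.mul_assoc, ← Matrix.mul_assoc, hU2, Matrix.one_mul]
  have hev : ∀ k, T k k = c → M *ᵥ (U *ᵥ Pi.single k 1) = c • (U *ᵥ Pi.single k 1) := by
    intro k hk
    rw [Matrix.mulVec_mulVec, hMU, ← Matrix.mulVec_mulVec, ← Matrix.mulVec_smul]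
    congr 1
    funext l
    rw [Matrix.mulVec_single_one, Matrix.col_apply, Pi.smul_apply]
    by_cases hlk : l = k
    · subst hlk
      rw [hk, Pi.single_eq_same, smul_eq_mul, mul_one]
    · rw [h9 l k hlk, Pi.single_eq_of_ne hlk, smul_zero]
  obtain ⟨a, b, hab, h11⟩ := h1 _ _ (hev i hi) (hev j hj)
  rw [← Matrix.mulVec_smul, ← Matrix.mulVec_smul, ← Matrix.mulVec_add] at h11
  have h12 : a • (Pi.single i 1 : Fin n → ℂ) + b • (Pi.single j 1 : Fin n → ℂ) = 0 := by
    have := congrArg (fun v => Uᴴ *ᵥ v) h11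
    simpa [Matrix.mulVec_mulVec, hU1] using this
  have h13 := congrFun h12 i
  have h14 := congrFun h12 j
  rw [Pi.add_apply, Pi.smul_apply, Pi.smul_apply, Pi.single_eq_same, Pi.single_eq_of_ne hij] at h13
  rw [Pi.add_apply, Pi.smul_apply, Pi.smul_apply, Pi.single_eq_same,
    Pi.single_eq_of_ne hij.symm] at h14
  simp at h13 h14
  rcases hab with h | h
  · exact h h13
  · exact h h14

end Pool.Agent.T6.H33.HM
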