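import Mathlib

/-!
# A Liouville theorem of Osserman type
-/

set_option autoImplicit false

open Filter Topology

namespace Pool.Agent.T6.H33.HM

/-- the second derivative is not positive at a local maximum -/
theorem second_deriv_nonpos {g g1 : ℝ → ℝ} {c : ℝ} (h0 : ∀ t, HasDerivAt g (g1 t) t)
    (h1 : HasDerivAt g1 c 0) (hm : IsLocalMax g 0) : g1 0 = 0 ∧ c ≤ 0 := by
  have e0 : g1 0 = 0 := hm.hasDerivAt_eq_zero (h0 0)
  refine ⟨e0, ?_⟩
  by_contra hc
  push Not at hc
  have hd : deriv g = g1 := funext fun t => (h0 t).deriv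
  have h2 : IsLocalMin g 0 := by
    apply isLocalMin_of_deriv_deriv_pos
    · rw [hd, h1.deriv]
      exact hc
    · rw [hd]
      exact e0
    · exact (h0 0).continuousAt
  have h3 : g =ᶠ[𝓝 0] fun _ => g 0 := by
    filter_upwards [hm, h2] with t ht1 ht2
    exact le_antisymm ht1 ht2
  have h4 : g1 =ᶠ[𝓝 0] fun _ => (0 : ℝ) := by
    have h5 := h3.eventuallyEq_nhds
    filter_upwards [h5] with t ht
    have h6 := ht.deriv_eq
    rw [deriv_const, (h0 t).deriv] at h6
    exact h6
  have h7 : c = 0 := by
    have h8 := h4.deriv_eq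
    rw [h1.deriv, deriv_const] at h8
    exact h8
  linarith

/-- the data of the first and second derivatives of a function along the lines in the directions
`1` and `i` -/
structure Jet (s : ℂ → ℝ) (s1 s2 : Bool → ℂ → ℝ) : Prop where
  cont : Continuous s
  fst : ∀ (b : Bool) (z : ℂ) (t : ℝ),
    HasDerivAt (fun t : ℝ => s (z + t * (if b then Complex.I else 1)))
      (s1 b (z + t * (if b then Complex.I else 1))) t
  snd : ∀ (b : Bool) (z : ℂ) (t : ℝ),
    HasDerivAt (fun t : ℝ => s1 b (z + t * (if b then Complex.I else 1)))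
      (s2 b (z + t * (if b then Complex.I else 1))) t

theorem liouville {s : ℂ → ℝ} {s1 s2 : Bool → ℂ → ℝ} (hs : Jet s s1 s2) {L κ : ℝ} (hL : 0 ≤ L)
    (hκ : 0 < κ) (h0 : L < s 0)
    (hineq : ∀ z, κ * (s z * (s z - L) ^ 2) ≤
      s z * (s2 false z + s2 true z) - (s1 false z ^ 2 + s1 true z ^ 2)) : False := by
  -- the main estimate
  have main : ∀ R : ℝ, 0 < R → s 0 * κ * (1 - L / s 0) ^ 2 * R ^ 2 ≤ 8 := by
    intro R hR
    have hs0 : 0 < s 0 := lt_of_le_of_lt hL h0
    set p : ℝ := (R ^ 2)⁻¹ with hp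
    have hp0 : 0 < p := by positivity
    have hpR : p * R ^ 2 = 1 := by
      rw [hp]
      exact inv_mul_cancel₀ (by positivity)
    set g : ℂ → ℝ := fun z => s z * (1 - Complex.normSq z * p) ^ 2 with hg
    have hgc : Continuous g := by
      have := hs.cont
      have h2 := Complex.continuous_normSq
      fun_prop
    obtain ⟨z, hz, hmax⟩ := (isCompact_closedBall (0 : ℂ) R).exists_isMaxOn
      ⟨0, Metric.mem_closedBall_self hR.le⟩ hgc.continuousOn
    have hg0 : g 0 = s 0 := by
      simp only [hg, map_zero]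
      ring
    have hgz : s 0 ≤ g z := by
      rw [← hg0]
      exact hmax (Metric.mem_closedBall_self hR.le)
    have hnz : Complex.normSq z < R ^ 2 := by
      have h2 : ‖z‖ ≤ R := by simpa using hz
      rcases lt_or_eq_of_le h2 with h3 | h3
      · rw [Complex.normSq_eq_norm_sq]
        exact pow_lt_pow_left₀ h3 (norm_nonneg _) two_ne_zero
      · exfalso
        have h4 : Complex.normSq z = R ^ 2 := by rw [Complex.normSq_eq_norm_sq, h3]
        have h5 : g z = 0 := by
          simp only [hg]
          rw [h4, mul_comm (R ^ 2) p, hpR]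
          ring
        linarith
    set ρ : ℝ := 1 - Complex.normSq z * p with hρ
    have hρ0 : 0 < ρ := by
      have : Complex.normSq z * p < R ^ 2 * p := mul_lt_mul_of_pos_right hnz hp0
      rw [mul_comm (R ^ 2) p, hpR] at this
      linarith
    have hρ1 : ρ ≤ 1 := by
      have : 0 ≤ Complex.normSq z * p := mul_nonneg (Complex.normSq_nonneg _) hp0.le
      linarith
    -- local maximum along lines
    have hloc : IsLocalMax g z := by
      have h2 : Metric.ball (0 : ℂ) R ∈ 𝓝 z := by
        apply Metric.isOpen_ball.mem_nhds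
        rw [mem_ball_zero_iff]
        by_contra h3
        push Not at h3
        have h4 : R ^ 2 ≤ ‖z‖ ^ 2 := pow_le_pow_left₀ hR.le h3 2
        rw [← Complex.normSq_eq_norm_sq] at h4
        linarith
      filter_upwards [h2] with w hw
      exact hmax (Metric.ball_subset_closedBall hw)
    -- the two directions
    have key : ∀ (b : Bool) (c : ℝ), c = (if b then z.im else z.re) →
        s1 b z * ρ ^ 2 + s z * (2 * ρ * (-(2 * c * p))) = 0 ∧
        s2 b z * ρ ^ 2 + 2 * (s1 b z * (2 * ρ * (-(2 * c * p)))) +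
          s z * (2 * (2 * c * p) ^ 2 - 4 * ρ * p) ≤ 0 := by
      intro b c hc
      set v : ℂ := if b then Complex.I else 1 with hv
      have hnorm : ∀ t : ℝ, Complex.normSq (z + t * v) = Complex.normSq z + 2 * c * t + t ^ 2 := by
        intro t
        rw [hc, hv]
        cases b
        · simp only [Bool.false_eq_true, if_false]
          rw [Complex.normSq_apply, Complex.normSq_apply]
          simp
          ring
        · simp only [if_true]
          rw [Complex.normSq_apply, Complex.normSq_apply]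
          simp
          ring
      set r : ℝ → ℝ := fun t => 1 - (Complex.normSq z + 2 * c * t + t ^ 2) * p with hr
      have hr' : ∀ t, HasDerivAt r (-((2 * c + 2 * t) * p)) t := by
        intro t
        have e1 : HasDerivAt (fun t : ℝ => Complex.normSq z + 2 * c * t + t ^ 2)
            (2 * c + 2 * t) t := by
          have e2 := (((hasDerivAt_id' t).const_mul (2 * c)).const_add (Complex.normSq z)).add
            (hasDerivAt_pow 2 t)
          exact e2.congr_deriv (by norm_num)
        have e4 := (e1.mul_const p).const_sub 1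
        exact e4
      set f : ℝ → ℝ := fun t => g (z + t * v) with hf
      have hfe : ∀ t, f t = s (z + t * v) * r t ^ 2 := by
        intro t
        simp only [hf, hg, hr]
        rw [hnorm]
      set f1 : ℝ → ℝ := fun t : ℝ => s1 b (z + t * v) * r t ^ 2 +
        s (z + t * v) * (2 * r t * (-((2 * c + 2 * t) * p))) with hf1
      have hfd : ∀ t, HasDerivAt f (f1 t) t := by
        intro t
        have e1 := (hs.fst b z t).mul ((hr' t).pow 2)
        have e2 : f = fun t : ℝ => s (z + t * v) * r t ^ 2 := funext hfe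
        rw [e2]
        refine e1.congr_deriv ?_
        rw [← hv]
        simp only [hf1, Pi.pow_apply]
        norm_num
      have hfd2 : HasDerivAt f1 (s2 b z * ρ ^ 2 + 2 * (s1 b z * (2 * ρ * (-(2 * c * p)))) +
          s z * (2 * (2 * c * p) ^ 2 - 4 * ρ * p)) 0 := by
        have e1 := (hs.snd b z 0).mul ((hr' 0).pow 2)
        have e3 : HasDerivAt (fun t : ℝ => -((2 * c + 2 * t) * p)) (-(2 * p)) 0 := by
          have e4 : HasDerivAt (fun t : ℝ => 2 * c + 2 * t) 2 0 := by
            have := ((hasDerivAt_id (0 : ℝ)).const_mul 2).const_add (2 * c)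
            simpa using this
          exact (e4.mul_const p).neg
        have e5 := (hs.fst b z 0).mul (((hr' 0).const_mul 2).mul e3)
        have e6 := e1.add e5
        have hr0 : r 0 = ρ := by
          simp only [hr, hρ]
          ring
        refine e6.congr_deriv ?_
        simp only [Complex.ofReal_zero, zero_mul, add_zero, hr0, mul_zero, Pi.mul_apply]
        norm_num
        ring
      have hloc2 : IsLocalMax f 0 := by
        have e1 : Tendsto (fun t : ℝ => z + (t : ℂ) * v) (𝓝 0) (𝓝 z) := by
          have : Continuous fun t : ℝ => z + (t : ℂ) * v := by fun_prop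
          have e2 := this.tendsto 0
          simpa using e2
        have e3 := e1.eventually hloc
        filter_upwards [e3] with t ht
        simp only [hf]
        simpa using ht
      obtain ⟨k1, k2⟩ := second_deriv_nonpos hfd hfd2 hloc2
      refine ⟨?_, k2⟩
      have hr0 : r 0 = ρ := by
        simp only [hr, hρ]
        ring
      have k3 : f1 0 = s1 b z * ρ ^ 2 + s z * (2 * ρ * (-(2 * c * p))) := by
        simp only [hf1, Complex.ofReal_zero, zero_mul, add_zero, hr0, mul_zero]
      rw [← k3]
      exact k1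
    obtain ⟨a1, a2⟩ := key false z.re rfl
    obtain ⟨b1, b2⟩ := key true z.im rfl
    have hsz : 0 < s z := by
      have h2 : 0 < g z := lt_of_lt_of_le hs0 hgz
      have h3 : g z = s z * ρ ^ 2 := rfl
      rw [h3] at h2
      by_contra h4
      push Not at h4
      have : s z * ρ ^ 2 ≤ 0 := mul_nonpos_of_nonpos_of_nonneg h4 (by positivity)
      linarith
    have hN : z.re ^ 2 + z.im ^ 2 = Complex.normSq z := by
      rw [Complex.normSq_apply]
      ring
    have hρN : Complex.normSq z * p = 1 - ρ := by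
      rw [hρ]
      ring
    -- the gradient
    have ga : s1 false z * ρ = 4 * s z * z.re * p := by
      have : ρ * (s1 false z * ρ) = ρ * (4 * s z * z.re * p) := by linarith
      exact mul_left_cancel₀ hρ0.ne' this
    have gb : s1 true z * ρ = 4 * s z * z.im * p := by
      have : ρ * (s1 true z * ρ) = ρ * (4 * s z * z.im * p) := by linarith
      exact mul_left_cancel₀ hρ0.ne' this
    have hin := hineq z
    -- ρ² (s Δs - |∇s|²) ≤ 8 s² p
    have e1 : ρ ^ 2 * (s z * (s2 false z + s2 true z) - (s1 false z ^ 2 + s1 true z ^ 2)) ≤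
        8 * s z ^ 2 * p := by
      have c1 : s z * (s2 false z * ρ ^ 2 + 2 * (s1 false z * (2 * ρ * (-(2 * z.re * p)))) +
          s z * (2 * (2 * z.re * p) ^ 2 - 4 * ρ * p)) ≤ 0 :=
        mul_nonpos_of_nonneg_of_nonpos hsz.le a2
      have c2 : s z * (s2 true z * ρ ^ 2 + 2 * (s1 true z * (2 * ρ * (-(2 * z.im * p)))) +
          s z * (2 * (2 * z.im * p) ^ 2 - 4 * ρ * p)) ≤ 0 :=
        mul_nonpos_of_nonneg_of_nonpos hsz.le b2
      have c3 : ρ ^ 2 * (s1 false z ^ 2 + s1 true z ^ 2) = 16 * s z ^ 2 * p * (1 - ρ) := by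
        have : ρ ^ 2 * (s1 false z ^ 2 + s1 true z ^ 2) =
            (s1 false z * ρ) ^ 2 + (s1 true z * ρ) ^ 2 := by ring
        rw [this, ga, gb, ← hρN, ← hN]
        ring
      have c4 : s z * (2 * (s1 false z * (2 * ρ * (-(2 * z.re * p))))) +
          s z * (2 * (s1 true z * (2 * ρ * (-(2 * z.im * p))))) = -(32 * s z ^ 2 * p * (1 - ρ)) := by
        have : s z * (2 * (s1 false z * (2 * ρ * (-(2 * z.re * p))))) +
          s z * (2 * (s1 true z * (2 * ρ * (-(2 * z.im * p))))) =
            -(8 * s z * p * (z.re * (s1 false z * ρ) + z.im * (s1 true z * ρ))) := by ring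
        rw [this, ga, gb, ← hρN, ← hN]
        ring
      have c5 : s z * (s z * (2 * (2 * z.re * p) ^ 2 - 4 * ρ * p)) +
          s z * (s z * (2 * (2 * z.im * p) ^ 2 - 4 * ρ * p)) =
          s z ^ 2 * p * (8 * (1 - ρ) - 8 * ρ) := by
        rw [← hρN, ← hN]
        ring
      nlinarith
    have e2 : ρ ^ 2 * (κ * (s z * (s z - L) ^ 2)) ≤ 8 * s z ^ 2 * p :=
      (mul_le_mul_of_nonneg_left hin (by positivity)).trans e1
    have e3 : s 0 ≤ s z * ρ ^ 2 := hgz
    have e4 : s 0 ≤ s z := by
      have : ρ ^ 2 ≤ 1 := pow_le_one₀ hρ0.le hρ1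
      nlinarith
    have e5 : s z * (1 - L / s 0) ≤ s z - L := by
      have : L ≤ s z * (L / s 0) := by
        rw [mul_div_assoc', le_div_iff₀ hs0]
        nlinarith
      nlinarith
    have e6 : 0 < 1 - L / s 0 := by
      rw [sub_pos, div_lt_one hs0]
      exact h0
    have e7 : s z ^ 2 * (1 - L / s 0) ^ 2 ≤ (s z - L) ^ 2 := by
      rw [← mul_pow]
      exact pow_le_pow_left₀ (by positivity) e5 2
    have e8 : s 0 * (κ * (s z ^ 2 * (1 - L / s 0) ^ 2)) ≤ 8 * s z ^ 2 * p := by
      calc s 0 * (κ * (s z ^ 2 * (1 - L / s 0) ^ 2)) ≤ s 0 * (κ * (s z - L) ^ 2) := by gcongr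
        _ ≤ (s z * ρ ^ 2) * (κ * (s z - L) ^ 2) := by
            apply mul_le_mul_of_nonneg_right e3
            positivity
        _ = ρ ^ 2 * (κ * (s z * (s z - L) ^ 2)) := by ring
        _ ≤ _ := e2
    have e9 : s z ^ 2 * (s 0 * κ * (1 - L / s 0) ^ 2) ≤ s z ^ 2 * (8 * p) := by
      calc s z ^ 2 * (s 0 * κ * (1 - L / s 0) ^ 2) = s 0 * (κ * (s z ^ 2 * (1 - L / s 0) ^ 2)) := by
            ring
        _ ≤ _ := e8
        _ = _ := by ring
    have e10 := le_of_mul_le_mul_left e9 (by positivity)
    calc s 0 * κ * (1 - L / s 0) ^ 2 * R ^ 2 ≤ 8 * p * R ^ 2 := by gcongr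
      _ = 8 := by rw [mul_assoc, hpR, mul_one]
  have hs0 : 0 < s 0 := lt_of_le_of_lt hL h0
  have e6 : 0 < 1 - L / s 0 := by
    rw [sub_pos, div_lt_one hs0]
    exact h0
  set D : ℝ := s 0 * κ * (1 - L / s 0) ^ 2 with hD
  have hD0 : 0 < D := by positivity
  have h1 := main (9 / D + 1) (by positivity)
  have h2 : 9 / D < (9 / D + 1) ^ 2 := by
    have : 0 < 9 / D := by positivity
    nlinarith
  have h3 : 9 < D * (9 / D + 1) ^ 2 := by
    have := mul_lt_mul_of_pos_left h2 hD0
    rwa [mul_div_cancel₀ _ hD0.ne'] at this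
  linarith

end Pool.Agent.T6.H33.HM
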