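import Pool.Agent.T6.H33.HM.Defs
import Pool.Agent.T6.H33.HM.Comm
import Pool.Agent.T6.H33.HM.MaxP

/-!
# The Bochner formula for a constant Higgs field
-/

set_option autoImplicit false

open Matrix
open scoped Matrix.Norms.Operator ContDiff

namespace Pool.Agent.T6.H33.HM

variable {n : ℕ}

theorem hasDerivAt_inv {H : ℝ → Matrix (Fin n) (Fin n) ℂ} {H' : Matrix (Fin n) (Fin n) ℂ} {t : ℝ}
    (h : HasDerivAt H H' t) (hu : IsUnit (H t)) :
    HasDerivAt (fun t => (H t)⁻¹) (-((H t)⁻¹ * H' * (H t)⁻¹)) t := by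
  obtain ⟨x, hx⟩ := hu
  have h1 := hasFDerivAt_ringInverse (𝕜 := ℝ) x
  rw [hx] at h1
  have h2 := h1.comp_hasDerivAt t h
  have h3 : (fun t => (H t)⁻¹) = Ring.inverse ∘ H := by
    funext s
    rw [Function.comp_apply, Matrix.nonsing_inv_eq_ringInverse]
  rw [h3]
  refine h2.congr_deriv ?_
  have h4 : (↑x⁻¹ : Matrix (Fin n) (Fin n) ℂ) = (H t)⁻¹ := by
    rw [← hx, Matrix.coe_units_inv]
  simp [h4]

/-- the trace as a continuous linear map -/
noncomputable def trL : Matrix (Fin n) (Fin n) ℂ →L[ℝ] ℂ :=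
  LinearMap.toContinuousLinearMap (Matrix.traceLinearMap (Fin n) ℝ ℂ)

theorem trL_apply (M : Matrix (Fin n) (Fin n) ℂ) : trL M = M.trace := rfl

theorem hasDerivAt_trace {F : ℝ → Matrix (Fin n) (Fin n) ℂ} {F' : Matrix (Fin n) (Fin n) ℂ} {t : ℝ}
    (h : HasDerivAt F F' t) : HasDerivAt (fun t => (F t).trace) F'.trace t :=
  (trL.hasFDerivAt.comp_hasDerivAt t h)

section line

variable (A : Matrix (Fin n) (Fin n) ℂ) (H H1 H2 : ℝ → Matrix (Fin n) (Fin n) ℂ)

/-- the adjoint along the line -/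
noncomputable def ad (A H : Matrix (Fin n) (Fin n) ℂ) : Matrix (Fin n) (Fin n) ℂ := H⁻¹ * Aᴴ * H

/-- the commutator with the adjoint -/
noncomputable def cc (A H : Matrix (Fin n) (Fin n) ℂ) : Matrix (Fin n) (Fin n) ℂ :=
  A * ad A H - ad A H * A

variable {A H H1 H2}

theorem hasDerivAt_ad {H : ℝ → Matrix (Fin n) (Fin n) ℂ} {H' : Matrix (Fin n) (Fin n) ℂ} {t : ℝ}
    (h : HasDerivAt H H' t) (hu : IsUnit (H t)) :
    HasDerivAt (fun t => ad A (H t))
      (ad A (H t) * ((H t)⁻¹ * H') - ((H t)⁻¹ * H') * ad A (H t)) t := by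
  have h1 := ((hasDerivAt_inv h hu).mul_const Aᴴ).mul h
  refine h1.congr_deriv ?_
  unfold ad
  have h2 : H t * (H t)⁻¹ = 1 := Matrix.mul_nonsing_inv _ ((Matrix.isUnit_iff_isUnit_det _).1 hu)
  have h3 : (H t)⁻¹ * Aᴴ * H t * ((H t)⁻¹ * H') = (H t)⁻¹ * Aᴴ * H' := by
    calc (H t)⁻¹ * Aᴴ * H t * ((H t)⁻¹ * H') = (H t)⁻¹ * Aᴴ * (H t * (H t)⁻¹) * H' := by
          simp only [Matrix.mul_assoc]
      _ = _ := by rw [h2, Matrix.mul_one]
  rw [h3, Matrix.neg_mul, Matrix.neg_mul]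
  rw [sub_eq_add_neg, add_comm]
  congr 2
  simp only [Matrix.mul_assoc]

theorem sig_deriv {H : ℝ → Matrix (Fin n) (Fin n) ℂ} {H' : Matrix (Fin n) (Fin n) ℂ} {t : ℝ}
    (h : HasDerivAt H H' t) (hu : IsUnit (H t)) :
    HasDerivAt (fun t => (A * ad A (H t)).trace) (((H t)⁻¹ * H') * cc A (H t)).trace t := by
  have h1 := hasDerivAt_trace ((hasDerivAt_ad (A := A) h hu).const_mul A)
  refine h1.congr_deriv ?_
  unfold cc
  rw [Matrix.mul_sub, Matrix.mul_sub, Matrix.trace_sub, Matrix.trace_sub]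
  congr 1
  · rw [← Matrix.mul_assoc, Matrix.trace_mul_comm]
  · rw [Matrix.trace_mul_comm A, Matrix.mul_assoc]

theorem sig_deriv2 {H H1 : ℝ → Matrix (Fin n) (Fin n) ℂ} {H2 : Matrix (Fin n) (Fin n) ℂ} {t : ℝ}
    (h : HasDerivAt H (H1 t) t) (h1 : HasDerivAt H1 H2 t) (hu : IsUnit (H t)) :
    HasDerivAt (fun t => (((H t)⁻¹ * H1 t) * cc A (H t)).trace)
      (((H t)⁻¹ * H2 * cc A (H t)).trace +
        2 * (((H t)⁻¹ * H1 t) * ((H t)⁻¹ * H1 t) * (ad A (H t) * A)).trace -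
        2 * (A * ((H t)⁻¹ * H1 t) * (ad A (H t) * ((H t)⁻¹ * H1 t))).trace) t := by
  have hX : HasDerivAt (fun t => (H t)⁻¹ * H1 t)
      (-((H t)⁻¹ * H1 t * ((H t)⁻¹ * H1 t)) + (H t)⁻¹ * H2) t := by
    refine ((hasDerivAt_inv h hu).mul h1).congr_deriv ?_
    rw [Matrix.neg_mul]
    simp only [Matrix.mul_assoc]
  have hC : HasDerivAt (fun t => cc A (H t))
      (A * (ad A (H t) * ((H t)⁻¹ * H1 t) - ((H t)⁻¹ * H1 t) * ad A (H t)) -
        (ad A (H t) * ((H t)⁻¹ * H1 t) - ((H t)⁻¹ * H1 t) * ad A (H t)) * A) t :=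
    ((hasDerivAt_ad (A := A) h hu).const_mul A).sub ((hasDerivAt_ad (A := A) h hu).mul_const A)
  have h3 := hasDerivAt_trace (hX.mul hC)
  refine h3.congr_deriv ?_
  set X := (H t)⁻¹ * H1 t with hXd
  set W := (H t)⁻¹ * H2 with hW
  set D := ad A (H t) with hD
  have hcc : cc A (H t) = A * D - D * A := rfl
  rw [hcc]
  clear_value X W D
  simp only [Matrix.add_mul, Matrix.neg_mul, Matrix.mul_sub, Matrix.sub_mul, Matrix.trace_add,
    Matrix.trace_sub, Matrix.trace_neg]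
  have e1 : (X * (A * (D * X))).trace = (X * X * (A * D)).trace := by
    have : X * (A * (D * X)) = X * (A * D) * X := by simp only [Matrix.mul_assoc]
    rw [this, Matrix.trace_mul_comm, ← Matrix.mul_assoc]
  have e2 : (X * (A * (X * D))).trace = (A * X * (D * X)).trace := by
    rw [Matrix.trace_mul_comm]
    simp only [Matrix.mul_assoc]
  have e3 : (X * (D * X * A)).trace = (A * X * (D * X)).trace := by
    have : X * (D * X * A) = X * (D * X) * A := by simp only [Matrix.mul_assoc]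
    rw [this, Matrix.trace_mul_comm]
    simp only [Matrix.mul_assoc]
  have e4 : (X * (X * D * A)).trace = (X * X * (D * A)).trace := by
    simp only [Matrix.mul_assoc]
  rw [e1, e2, e3, e4]
  ring

end line

end Pool.Agent.T6.H33.HM
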