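import Mathlib

/-!
# Harmonic metrics on Higgs bundles over the plane

We use the frame `s^(n-1), s^(n-3), ..., s^(1-n)` of `K^((n-1)/2) ⊕ ... ⊕ K^((1-n)/2)` over
`X = ℂ`, where `s` is the frame of `K^(1/2)` with `s² = dz`. A holomorphic `j`-differential on `X`
is `q_j(z) dz^j` with an entire function `q_j`, and a Higgs field is `A(z) dz` with a holomorphic
matrix valued function `A`.
-/

set_option autoImplicit false

open Matrix
open scoped ContDiff ComplexOrder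

namespace Pool.Agent.T6.H33.HM

/-- The matrix, in the frame above, of the Higgs field `θ(q)` of the Hitchin section: `1` on the
subdiagonal and `q_j` on the `(j-1)`-th superdiagonal, `2 ≤ j ≤ n`. So the first row is
`(0, q_2, q_3, ..., q_n)` and the second row is `(1, 0, q_2, ..., q_(n-1))`. -/
def higgs (n : ℕ) (q : ℕ → ℂ → ℂ) (z : ℂ) : Matrix (Fin n) (Fin n) ℂ := fun i k =>
  if (i : ℕ) = (k : ℕ) + 1 then 1 else if i < k then q ((k : ℕ) - (i : ℕ) + 1) z else 0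

/-- `∂F/∂z = (∂F/∂x - i ∂F/∂y) / 2` for a matrix valued function, entry by entry -/
noncomputable def del {n : ℕ} (F : ℂ → Matrix (Fin n) (Fin n) ℂ) (z : ℂ) :
    Matrix (Fin n) (Fin n) ℂ := fun i j =>
  (fderiv ℝ (fun w => F w i j) z 1 - Complex.I * fderiv ℝ (fun w => F w i j) z Complex.I) / 2

/-- `∂F/∂z̄ = (∂F/∂x + i ∂F/∂y) / 2` for a matrix valued function, entry by entry -/
noncomputable def delbar {n : ℕ} (F : ℂ → Matrix (Fin n) (Fin n) ℂ) (z : ℂ) :
    Matrix (Fin n) (Fin n) ℂ := fun i j =>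
  (fderiv ℝ (fun w => F w i j) z 1 + Complex.I * fderiv ℝ (fun w => F w i j) z Complex.I) / 2

/-- The function `H` is (the Gram matrix `H i j = h (e_j, e_i)` in the holomorphic frame `e` of) a
harmonic metric `h` on the Higgs bundle `(𝒪ⁿ, A dz)` over `ℂ`: it is smooth, its values are positive
definite Hermitian matrices, and `∇_h ∘ ∇_h + [θ, θ^*h] = 0`. Here the Chern connection is
`∇_h = d + H⁻¹ ∂H`, its curvature is `∂/∂z̄ (H⁻¹ ∂H/∂z) dz̄ ∧ dz`, the adjoint of `θ = A dz` is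
`θ^*h = H⁻¹ Aᴴ H dz̄` and `[θ, θ^*h] = (A (H⁻¹ Aᴴ H) - (H⁻¹ Aᴴ H) A) dz ∧ dz̄`. -/
structure IsHarmonicMetric {n : ℕ} (A H : ℂ → Matrix (Fin n) (Fin n) ℂ) : Prop where
  smooth : ∀ i j, ContDiff ℝ ∞ fun z => H z i j
  posDef : ∀ z, (H z).PosDef
  harmonic : ∀ z, delbar (fun w => (H w)⁻¹ * del H w) z =
    A z * ((H z)⁻¹ * (A z)ᴴ * H z) - ((H z)⁻¹ * (A z)ᴴ * H z) * A z

end Pool.Agent.T6.H33.HM
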