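import Pool.Agent.T6.H33.HM.Main

/-!
# Constant differentials for which the Higgs field is not semisimple
-/

set_option autoImplicit false

open Matrix Finset Polynomial

namespace Pool.Agent.T6.H33.HM

/-- A vector in an eigenspace of the Higgs field vanishes if its last coordinate vanishes. -/
theorem eq_zero_of_last {m : ℕ} (q : ℕ → ℂ → ℂ) (z c : ℂ) (u : Fin (m + 1) → ℂ)
    (hu : higgs (m + 1) q z *ᵥ u = c • u) (hl : u (Fin.last m) = 0) : u = 0 := by
  have key : ∀ d : ℕ, ∀ i : Fin (m + 1), m - (i : ℕ) = d → u i = 0 := by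
    intro d
    induction d using Nat.strong_induction_on with
    | _ d ih =>
      intro i hi
      by_cases him : (i : ℕ) = m
      · have : i = Fin.last m := Fin.ext him
        rw [this, hl]
      · have hi2 : (i : ℕ) + 1 < m + 1 := by
          have := i.2
          omega
        have hrow := congrFun hu ⟨(i : ℕ) + 1, hi2⟩
        have hz : ∀ k : Fin (m + 1), (i : ℕ) < k → u k = 0 := by
          intro k hk
          exact ih (m - (k : ℕ)) (by have := k.2; omega) k rfl
        rw [Pi.smul_apply, hz ⟨(i : ℕ) + 1, hi2⟩ (by simp), smul_zero] at hrow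
        unfold Matrix.mulVec dotProduct at hrow
        rw [Finset.sum_eq_single i] at hrow
        · simpa [higgs] using hrow
        · intro k _ hki
          rcases lt_or_gt_of_ne hki with h | h
          · have h1 : ¬ ((i : ℕ) + 1 = (k : ℕ) + 1) := by
              have : (k : ℕ) < i := h
              omega
            have h2 : ¬ ((⟨(i : ℕ) + 1, hi2⟩ : Fin (m + 1)) < k) := by
              rw [Fin.lt_def]
              have : (k : ℕ) < i := h
              simp only
              omega
            simp only [higgs]
            rw [if_neg h1, if_neg h2, zero_mul]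
          · rw [hz k h, mul_zero]
        · intro h
          exact absurd (Finset.mem_univ i) h
  funext i
  exact key _ i rfl

theorem eigen_line {m : ℕ} (q : ℕ → ℂ → ℂ) (z c : ℂ) (v w : Fin (m + 1) → ℂ)
    (hv : higgs (m + 1) q z *ᵥ v = c • v) (hw : higgs (m + 1) q z *ᵥ w = c • w) :
    ∃ a b : ℂ, (a ≠ 0 ∨ b ≠ 0) ∧ a • v + b • w = 0 := by
  by_cases h : v (Fin.last m) = 0
  · refine ⟨1, 0, Or.inl one_ne_zero, ?_⟩
    rw [eq_zero_of_last q z c v hv h]
    simp
  · refine ⟨w (Fin.last m), -v (Fin.last m), Or.inr (neg_ne_zero.2 h), ?_⟩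
    apply eq_zero_of_last q z c
    · rw [Matrix.mulVec_add, Matrix.mulVec_smul, Matrix.mulVec_smul, hv, hw, smul_add,
        smul_comm, smul_comm c (-v (Fin.last m))]
    · simp only [Pi.add_apply, Pi.smul_apply, smul_eq_mul]
      ring

/-- the coefficients: `q_2 = 1`, `q_n = t` -/
noncomputable def qq (n : ℕ) (t : ℂ) : ℕ → ℂ → ℂ := fun j _ => if j = 2 then 1 else if j = n then t else 0

theorem charpoly_qq (m : ℕ) (hm : 2 ≤ m) (t : ℂ) :
    (higgs (m + 1) (qq (m + 1) t) 0).charpoly =
      (higgs (m + 1) (qq (m + 1) 0) 0).charpoly - C t := by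
  set A := higgs (m + 1) (qq (m + 1) t) 0 with hA
  set B := higgs (m + 1) (qq (m + 1) 0) 0 with hB
  set M := B.charmatrix with hM
  have hrow : ∀ k : Fin (m + 1), A 0 k = B 0 k + (if k = Fin.last m then t else 0) := by
    intro k
    simp only [hA, hB, higgs, qq]
    by_cases hk : k = Fin.last m
    · subst hk
      have h1 : ¬ (((0 : Fin (m + 1)) : ℕ) = ((Fin.last m : Fin (m + 1)) : ℕ) + 1) := by simp
      have h2 : (0 : Fin (m + 1)) < Fin.last m := by
        rw [Fin.lt_def]
        simp
        omega
      rw [if_neg h1, if_pos h2, if_neg h1, if_pos h2]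
      have h3 : ((Fin.last m : Fin (m + 1)) : ℕ) - ((0 : Fin (m + 1)) : ℕ) + 1 = m + 1 := by simp
      rw [h3]
      have h4 : ¬ (m + 1 = 2) := by omega
      simp [h4]
    · have h3 : (k : ℕ) - ((0 : Fin (m + 1)) : ℕ) + 1 ≠ m + 1 := by
        intro h
        apply hk
        apply Fin.ext
        simp at h
        simp [h]
      have h5 : (k : ℕ) ≠ m := fun h => hk (Fin.ext h)
      simp [h5, hk]
  have hother : ∀ i k : Fin (m + 1), i ≠ 0 → A i k = B i k := by
    intro i k hi
    simp only [hA, hB, higgs, qq]
    have hi' : (i : ℕ) ≠ 0 := fun h => hi (Fin.ext h)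
    have h3 : i < k → (k : ℕ) - (i : ℕ) ≠ m := by
      intro h h'
      have h4 : (i : ℕ) < k := h
      have := k.2
      omega
    by_cases hik : i < k
    · simp [h3 hik]
    · simp [hik]
  have hch : A.charmatrix = M.updateRow 0 (M 0 + (-C t) • (Pi.single (Fin.last m) 1)) := by
    refine Matrix.ext fun i k => ?_
    rw [Matrix.updateRow_apply]
    split_ifs with hi
    · subst hi
      rw [Matrix.charmatrix_apply, hrow, Pi.add_apply, Pi.smul_apply, hM, Matrix.charmatrix_apply]
      by_cases hk : k = Fin.last m
      · subst hk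
        simp
        ring
      · simp [hk]
    · rw [Matrix.charmatrix_apply, hother i k hi, hM, Matrix.charmatrix_apply]
  have hdet : (M.updateRow 0 (Pi.single (Fin.last m) 1)).det = 1 := by
    rw [Matrix.det_succ_row_zero, Finset.sum_eq_single (Fin.last m)]
    · rw [Matrix.updateRow_self, Pi.single_eq_same, mul_one]
      have htri : ((M.updateRow 0 (Pi.single (Fin.last m) 1)).submatrix Fin.succ
          (Fin.last m).succAbove).det = (-1) ^ m := by
        have hent : ∀ i j : Fin m, ((M.updateRow 0 (Pi.single (Fin.last m) 1)).submatrix Fin.succ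
            (Fin.last m).succAbove) i j = M i.succ j.castSucc := by
          intro i j
          rw [Matrix.submatrix_apply, Matrix.updateRow_ne (Fin.succ_ne_zero i),
            Fin.succAbove_last]
        rw [Matrix.det_of_isUpperTriangular]
        · rw [Finset.prod_congr rfl (fun i _ => hent i i)]
          have hd : ∀ i : Fin m, M i.succ i.castSucc = -1 := by
            intro i
            rw [hM, Matrix.charmatrix_apply, Matrix.diagonal_apply_ne]
            · simp only [hB, higgs]
              simp
            · intro h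
              have := congrArg Fin.val h
              simp at this
          rw [Finset.prod_congr rfl (fun i _ => hd i)]
          simp
        · intro i j hij
          have hij' : (j : ℕ) < i := hij
          rw [hent, hM, Matrix.charmatrix_apply, Matrix.diagonal_apply_ne]
          · simp only [hB, higgs]
            have h1 : ¬ ((i.succ : Fin (m + 1)) : ℕ) = ((j.castSucc : Fin (m + 1)) : ℕ) + 1 := by
              simp
              omega
            have h2 : ¬ ((i.succ : Fin (m + 1)) < j.castSucc) := by
              rw [Fin.lt_def]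
              simp
              omega
            rw [if_neg h1, if_neg h2]
            simp
          · intro h
            have := congrArg Fin.val h
            simp at this
            omega
      rw [htri]
      have : ((Fin.last m : Fin (m + 1)) : ℕ) = m := rfl
      rw [this, ← mul_pow]
      simp
    · intro k _ hk
      rw [Matrix.updateRow_self, Pi.single_eq_of_ne hk]
      simp
    · intro h
      exact absurd (Finset.mem_univ _) h
  rw [Matrix.charpoly, hch, Matrix.det_updateRow_add, Matrix.det_updateRow_smul, hdet,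
    Matrix.updateRow_eq_self]
  rw [Matrix.charpoly, mul_one, sub_eq_add_neg]

/-- For a suitable `t` the Higgs field has a multiple eigenvalue. -/
theorem exists_double (m : ℕ) (hm : 2 ≤ m) : ∃ t c : ℂ,
    2 ≤ (higgs (m + 1) (qq (m + 1) t) 0).charpoly.roots.count c := by
  set P := (higgs (m + 1) (qq (m + 1) 0) 0).charpoly with hP
  have hdeg : P.natDegree = m + 1 := by
    rw [hP, Matrix.charpoly_natDegree_eq_dim, Fintype.card_fin]
  have hmon : P.Monic := Matrix.charpoly_monic _
  have hder : (derivative P).degree ≠ 0 := by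
    intro h
    rw [Polynomial.degree_derivative_eq P (by omega), hdeg] at h
    have h2 : m + 1 - 1 = 0 := by exact_mod_cast h
    omega
  obtain ⟨c, hc⟩ := IsAlgClosed.exists_root (derivative P) hder
  refine ⟨P.eval c, c, ?_⟩
  rw [charpoly_qq m hm, ← hP, Polynomial.count_roots]
  have hne : P - C (P.eval c) ≠ 0 := by
    intro h
    have h1 : P = C (P.eval c) := sub_eq_zero.1 h
    have h2 : P.natDegree = 0 := by rw [h1, natDegree_C]
    omega
  have h3 : 1 < (P - C (P.eval c)).rootMultiplicity c := by
    rw [Polynomial.one_lt_rootMultiplicity_iff_isRoot hne]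
    refine ⟨?_, ?_⟩
    · simp [Polynomial.IsRoot]
    · rw [Polynomial.derivative_sub, Polynomial.derivative_C, sub_zero]
      exact hc
  exact h3

/-- The counterexamples. -/
theorem counterexample (n : ℕ) (hn : 3 ≤ n) : ∃ q : ℕ → ℂ → ℂ,
    (∀ j, Differentiable ℂ (q j)) ∧ (∃ j, 2 ≤ j ∧ j ≤ n ∧ ∃ z, q j z ≠ 0) ∧
      ¬ ∃ H : ℂ → Matrix (Fin n) (Fin n) ℂ, IsHarmonicMetric (higgs n q) H := by
  obtain ⟨m, rfl⟩ : ∃ m, n = m + 1 := ⟨n - 1, by omega⟩
  obtain ⟨t, c, h2⟩ := exists_double m (by omega)
  refine ⟨qq (m + 1) t, fun j => differentiable_const _, ⟨2, le_rfl, by omega, 0, by simp [qq]⟩, ?_⟩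
  rintro ⟨H, hH⟩
  have hconst : higgs (m + 1) (qq (m + 1) t) = fun _ => higgs (m + 1) (qq (m + 1) t) 0 := by
    funext z
    rfl
  rw [hconst] at hH
  exact no_metric hH c h2 fun v w hv hw => eigen_line (qq (m + 1) t) 0 c v w hv hw

end Pool.Agent.T6.H33.HM
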