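import Pool.Agent.T6.H33.HM.Point

/-!
# No harmonic metric for a constant Higgs field which is not semisimple
-/

set_option autoImplicit false

open Matrix Finset
open scoped ComplexOrder Matrix.Norms.Operator ContDiff

namespace Pool.Agent.T6.H33.HM

variable {n : ℕ}

/-- an entry as a continuous linear map -/
noncomputable def entL (i j : Fin n) : Matrix (Fin n) (Fin n) ℂ →L[ℝ] ℂ :=
  LinearMap.toContinuousLinearMap (Matrix.entryLinearMap ℝ ℂ i j)

theorem entL_apply (i j : Fin n) (M : Matrix (Fin n) (Fin n) ℂ) : entL i j M = M i j := rfl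

theorem contDiff_mat {H : ℂ → Matrix (Fin n) (Fin n) ℂ} {k : WithTop ℕ∞}
    (h : ∀ i j, ContDiff ℝ k fun z => H z i j) : ContDiff ℝ k H := by
  have h1 : H = fun z => ∑ i, ∑ j, (H z i j) • (Matrix.single i j (1 : ℂ)) := by
    funext z
    conv_lhs => rw [Matrix.matrix_eq_sum_single (H z)]
    refine sum_congr rfl fun i _ => sum_congr rfl fun j _ => ?_
    rw [Matrix.smul_single, smul_eq_mul, mul_one]
  rw [h1]
  exact ContDiff.sum fun i _ => ContDiff.sum fun j _ => (h i j).smul contDiff_const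

theorem fderiv_entry {F : ℂ → Matrix (Fin n) (Fin n) ℂ} {z : ℂ} (h : DifferentiableAt ℝ F z)
    (i j : Fin n) (v : ℂ) : fderiv ℝ (fun w => F w i j) z v = (fderiv ℝ F z v) i j := by
  have h1 := (entL i j).hasFDerivAt.comp z h.hasFDerivAt
  have h2 : (fun w => F w i j) = entL i j ∘ F := rfl
  rw [h2, h1.fderiv]
  rfl

theorem del_eq {F : ℂ → Matrix (Fin n) (Fin n) ℂ} {z : ℂ} (h : DifferentiableAt ℝ F z) :
    del F z = (1 / 2 : ℂ) • (fderiv ℝ F z 1 - Complex.I • fderiv ℝ F z Complex.I) := by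
  ext i j
  unfold del
  rw [fderiv_entry h, fderiv_entry h]
  simp only [Matrix.smul_apply, Matrix.sub_apply, smul_eq_mul]
  ring

theorem delbar_eq {F : ℂ → Matrix (Fin n) (Fin n) ℂ} {z : ℂ} (h : DifferentiableAt ℝ F z) :
    delbar F z = (1 / 2 : ℂ) • (fderiv ℝ F z 1 + Complex.I • fderiv ℝ F z Complex.I) := by
  ext i j
  unfold delbar
  rw [fderiv_entry h, fderiv_entry h]
  simp only [Matrix.smul_apply, Matrix.add_apply, smul_eq_mul]
  ring

/-- derivative along a line -/
theorem line_deriv {E : Type*} [NormedAddCommGroup E] [NormedSpace ℝ E] {F : ℂ → E}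
    (h : Differentiable ℝ F) (z v : ℂ) (t : ℝ) :
    HasDerivAt (fun t : ℝ => F (z + t * v)) (fderiv ℝ F (z + t * v) v) t := by
  have h1 : HasDerivAt (fun t : ℝ => z + (t : ℂ) * v) v t := by
    have h2 : HasDerivAt (fun t : ℝ => (t : ℂ)) 1 t := Complex.ofRealCLM.hasDerivAt
    have h3 := (h2.mul_const v).const_add z
    simpa using h3
  exact (h (z + t * v)).hasFDerivAt.comp_hasDerivAt t h1

section

variable {A : Matrix (Fin n) (Fin n) ℂ} {H : ℂ → Matrix (Fin n) (Fin n) ℂ}

/-- first derivatives -/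
noncomputable def h1 (H : ℂ → Matrix (Fin n) (Fin n) ℂ) (v z : ℂ) : Matrix (Fin n) (Fin n) ℂ :=
  fun i j => fderiv ℝ (fun w => H w i j) z v

/-- second derivatives -/
noncomputable def h2 (H : ℂ → Matrix (Fin n) (Fin n) ℂ) (v w z : ℂ) : Matrix (Fin n) (Fin n) ℂ :=
  h1 (h1 H v) w z

theorem h1_eq {F : ℂ → Matrix (Fin n) (Fin n) ℂ} (h : Differentiable ℝ F) (v z : ℂ) :
    fderiv ℝ F z v = h1 F v z := by
  ext i j
  exact (fderiv_entry (h z) i j v).symm

theorem entry_contDiff {k : WithTop ℕ∞} (hs : ContDiff ℝ k H) (i j : Fin n) :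
    ContDiff ℝ k fun z => H z i j :=
  (entL i j).contDiff.comp hs

theorem h1_contDiff (hs : ContDiff ℝ ∞ H) (v : ℂ) : ContDiff ℝ ∞ (h1 H v) := by
  apply contDiff_mat
  intro i j
  have : ContDiff ℝ ∞ (fderiv ℝ fun z => H z i j) := (entry_contDiff hs i j).fderiv_right (by simp)
  exact this.clm_apply contDiff_const

theorem h2_symm (hs : ContDiff ℝ ∞ H) (v w z : ℂ) : h2 H v w z = h2 H w v z := by
  ext i j
  have hs' := entry_contDiff hs i j
  have hd : ContDiff ℝ ∞ (fderiv ℝ fun z => H z i j) := hs'.fderiv_right (by simp)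
  have h3 : ∀ v w : ℂ, h2 H v w z i j = fderiv ℝ (fderiv ℝ fun z => H z i j) z w v := by
    intro v w
    unfold h2 h1
    have h4 : DifferentiableAt ℝ (fderiv ℝ fun z => H z i j) z := (hd.differentiable (by simp)) z
    have h5 := (h4.hasFDerivAt.clm_apply (hasFDerivAt_const v z))
    show fderiv ℝ (fun y => (fderiv ℝ (fun z => H z i j) y) v) z w = _
    rw [h5.fderiv]
    simp
  rw [h3, h3]
  have h6 : IsSymmSndFDerivAt ℝ (fun z => H z i j) z :=
    hs'.contDiffAt.isSymmSndFDerivAt (by simp [minSmoothness]; exact WithTop.coe_le_coe.2 le_top)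
  exact h6 w v

theorem line_deriv' {F : ℂ → Matrix (Fin n) (Fin n) ℂ} (h : Differentiable ℝ F) (z v : ℂ) (t : ℝ) :
    HasDerivAt (fun t : ℝ => F (z + t * v)) (h1 F v (z + t * v)) t := by
  rw [← h1_eq h]
  exact line_deriv h z v t

/-- The harmonic metric equation in terms of the derivatives -/
theorem equation (hH : IsHarmonicMetric (fun _ => A) H) (z : ℂ) :
    (H z)⁻¹ * (h2 H 1 1 z + h2 H Complex.I Complex.I z) =
      (4 : ℂ) • cc A (H z) + ((H z)⁻¹ * h1 H 1 z) * ((H z)⁻¹ * h1 H 1 z) +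
        ((H z)⁻¹ * h1 H Complex.I z) * ((H z)⁻¹ * h1 H Complex.I z) -
      Complex.I • (((H z)⁻¹ * h1 H 1 z) * ((H z)⁻¹ * h1 H Complex.I z) -
        ((H z)⁻¹ * h1 H Complex.I z) * ((H z)⁻¹ * h1 H 1 z)) := by
  have hs : ContDiff ℝ ∞ H := contDiff_mat hH.smooth
  have hd : Differentiable ℝ H := hs.differentiable (by simp)
  have hu : ∀ w, IsUnit (H w) := fun w => (hH.posDef w).isUnit
  -- the function `G = H⁻¹ ∂H`
  have hdel : ∀ w, del H w = (1 / 2 : ℂ) • (h1 H 1 w - Complex.I • h1 H Complex.I w) := by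
    intro w
    rw [del_eq (hd w), h1_eq hd, h1_eq hd]
  have hinv : Differentiable ℝ fun w => (H w)⁻¹ := by
    intro w
    have e1 : (fun w => (H w)⁻¹) = fun w => Ring.inverse (H w) := by
      funext s
      rw [Matrix.nonsing_inv_eq_ringInverse]
    rw [e1]
    obtain ⟨x, hx⟩ := hu w
    have e2 := (hasFDerivAt_ringInverse (𝕜 := ℝ) x)
    rw [hx] at e2
    exact (e2.comp w (hd w).hasFDerivAt).differentiableAt
  have hdeld : Differentiable ℝ fun w => del H w := by
    have e1 : (fun w => del H w) =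
        fun w => (1 / 2 : ℂ) • (h1 H 1 w - Complex.I • h1 H Complex.I w) := funext hdel
    rw [e1]
    have e2 := (h1_contDiff hs 1).differentiable (by simp)
    have e3 := (h1_contDiff hs Complex.I).differentiable (by simp)
    exact (e2.sub (e3.const_smul Complex.I)).const_smul (1 / 2 : ℂ)
  have hG : Differentiable ℝ fun w => (H w)⁻¹ * del H w := hinv.mul hdeld
  -- its derivatives
  have hGv : ∀ v : ℂ, fderiv ℝ (fun w => (H w)⁻¹ * del H w) z v =
      -((H z)⁻¹ * h1 H v z * (H z)⁻¹) * ((1 / 2 : ℂ) • (h1 H 1 z - Complex.I • h1 H Complex.I z)) +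
        (H z)⁻¹ * ((1 / 2 : ℂ) • (h2 H 1 v z - Complex.I • h2 H Complex.I v z)) := by
    intro v
    have e1 := line_deriv hG z v 0
    have e2 := line_deriv' hd z v 0
    have e3 := hasDerivAt_inv e2 (by simpa using hu z)
    have e4 := line_deriv' ((h1_contDiff hs 1).differentiable (by simp)) z v 0
    have e5 := line_deriv' ((h1_contDiff hs Complex.I).differentiable (by simp)) z v 0
    have e6 := (e4.sub (e5.const_smul Complex.I)).const_smul (1 / 2 : ℂ)
    have e7 := e3.mul e6
    have e8 : (fun t : ℝ => (H (z + t * v))⁻¹ * del H (z + t * v)) =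
        ((fun t : ℝ => (H (z + t * v))⁻¹) * ((1 / 2 : ℂ) • ((fun t : ℝ => h1 H 1 (z + t * v)) -
          Complex.I • fun t : ℝ => h1 H Complex.I (z + t * v)))) := by
      funext t
      rw [hdel]
      rfl
    rw [e8] at e1
    simp only [Complex.ofReal_zero, zero_mul, add_zero] at e1 e7
    refine e1.unique ?_
    refine e7.congr_deriv ?_
    simp only [Pi.smul_apply, Pi.sub_apply, Complex.ofReal_zero, zero_mul, add_zero]
    rfl
  have heq := hH.harmonic z
  rw [delbar_eq (hG z), hGv, hGv] at heq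
  have hcc : A * ((H z)⁻¹ * Aᴴ * H z) - ((H z)⁻¹ * Aᴴ * H z) * A = cc A (H z) := rfl
  rw [hcc] at heq
  rw [← heq, h2_symm hs 1 Complex.I]
  generalize (H z)⁻¹ = K
  generalize h1 H 1 z = P
  generalize h1 H Complex.I z = Q
  generalize h2 H 1 1 z = R
  generalize h2 H Complex.I Complex.I z = S
  generalize h2 H Complex.I 1 z = T
  simp only [Matrix.mul_add, Matrix.mul_sub, Matrix.neg_mul, Matrix.mul_smul,
    smul_add, smul_sub, smul_neg, smul_smul]
  have hI : Complex.I * Complex.I = -1 := Complex.I_mul_I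
  have e1 : (4 : ℂ) * (1 / 2 * (1 / 2)) = 1 := by norm_num
  have e2 : (4 : ℂ) * (1 / 2 * (1 / 2 * Complex.I)) = Complex.I := by ring
  have e3 : (4 : ℂ) * (1 / 2 * (Complex.I * (1 / 2))) = Complex.I := by ring
  have e4 : (4 : ℂ) * (1 / 2 * (Complex.I * (1 / 2 * Complex.I))) = -1 := by
    linear_combination hI
  simp only [e1, e2, e3, e4, Matrix.mul_assoc]
  module

theorem hermitian_h1 (hs : ContDiff ℝ ∞ H) (hh : ∀ z, (H z)ᴴ = H z) (v z : ℂ) :
    (h1 H v z)ᴴ = h1 H v z := by
  have hd : Differentiable ℝ H := hs.differentiable (by simp)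
  ext i j
  rw [Matrix.conjTranspose_apply]
  unfold h1
  have e1 : (fun w => H w i j) = fun w => star (H w j i) := by
    funext w
    conv_lhs => rw [← hh w]
    rfl
  rw [e1]
  have e2 : DifferentiableAt ℝ (fun w => H w j i) z :=
    ((entL j i).hasFDerivAt.comp z (hd z).hasFDerivAt).differentiableAt
  have e3 := (Complex.conjCLE.toContinuousLinearMap.hasFDerivAt.comp z e2.hasFDerivAt)
  have e4 : (fun w => star (H w j i)) = Complex.conjCLE.toContinuousLinearMap ∘ fun w => H w j i := rfl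
  rw [e4, e3.fderiv]
  rfl

/-- the norm of the Higgs field -/
noncomputable def sN (A : Matrix (Fin n) (Fin n) ℂ) (H : ℂ → Matrix (Fin n) (Fin n) ℂ) (z : ℂ) : ℝ :=
  (A * ad A (H z)).trace.re

theorem no_metric_of_lt (hH : IsHarmonicMetric (fun _ => A) H) (h0 : lsq A < sN A H 0) : False := by
  have hs : ContDiff ℝ ∞ H := contDiff_mat hH.smooth
  have hd : Differentiable ℝ H := hs.differentiable (by simp)
  have hu : ∀ w, IsUnit (H w) := fun w => (hH.posDef w).isUnit
  have hn : 0 < n := by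
    rcases Nat.eq_zero_or_pos n with h | h
    · subst h
      exfalso
      have e1 : sN A H 0 = 0 := by
        unfold sN Matrix.trace
        simp
      have e2 : lsq A = 0 := by
        unfold lsq
        have : A.charpoly = 1 := by
          rw [Matrix.charpoly, Matrix.det_isEmpty]
        rw [this]
        simp
      rw [e1, e2] at h0
      exact lt_irrefl _ h0
    · exact h
  set vv : Bool → ℂ := fun b => if b then Complex.I else 1 with hvv
  have hjet : Jet (sN A H) (fun b z => (((H z)⁻¹ * h1 H (vv b) z) * cc A (H z)).trace.re)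
      (fun b z => (((H z)⁻¹ * h2 H (vv b) (vv b) z * cc A (H z)).trace +
        2 * (((H z)⁻¹ * h1 H (vv b) z) * ((H z)⁻¹ * h1 H (vv b) z) * (ad A (H z) * A)).trace -
        2 * (A * ((H z)⁻¹ * h1 H (vv b) z) * (ad A (H z) * ((H z)⁻¹ * h1 H (vv b) z))).trace).re) := by
    refine ⟨?_, ?_, ?_⟩
    · unfold sN
      have e1 : Continuous H := hd.continuous
      have e2 : Continuous fun z => (H z)⁻¹ := by
        rw [continuous_iff_continuousAt]
        intro z
        have e3 : (fun w => (H w)⁻¹) = fun w => Ring.inverse (H w) := by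
          funext s
          rw [Matrix.nonsing_inv_eq_ringInverse]
        rw [e3]
        obtain ⟨x, hx⟩ := hu z
        have e4 : ContinuousAt Ring.inverse (x : Matrix (Fin n) (Fin n) ℂ) :=
          NormedRing.inverse_continuousAt x
        rw [hx] at e4
        exact ContinuousAt.comp (f := H) e4 e1.continuousAt
      have e5 : Continuous fun z => A * ad A (H z) := by
        unfold ad
        exact continuous_const.mul ((e2.mul continuous_const).mul e1)
      exact Complex.continuous_re.comp (trL.continuous.comp e5)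
    · intro b z t
      have e1 := line_deriv' hd z (vv b) t
      have e2 := sig_deriv (A := A) e1 (hu _)
      exact (Complex.reCLM.hasFDerivAt.comp_hasDerivAt t e2)
    · intro b z t
      have e1 := line_deriv' hd z (vv b) t
      have e3 := line_deriv' ((h1_contDiff hs (vv b)).differentiable (by simp)) z (vv b) t
      have e2 := sig_deriv2 (A := A) (H := fun t : ℝ => H (z + t * vv b))
        (H1 := fun t : ℝ => h1 H (vv b) (z + t * vv b)) e1 e3 (hu _)
      exact (Complex.reCLM.hasFDerivAt.comp_hasDerivAt t e2)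
  have hL : 0 ≤ lsq A := by
    unfold lsq
    apply Multiset.sum_nonneg
    intro x hx
    obtain ⟨y, _, rfl⟩ := Multiset.mem_map.1 hx
    exact Complex.normSq_nonneg _
  have hn3 : (0 : ℝ) < (n : ℝ) ^ 3 := by positivity
  refine liouville hjet hL (κ := 4 / (n : ℝ) ^ 3) (by positivity) h0 ?_
  intro z
  have hherm : ∀ z, (H z)ᴴ = H z := fun z => (hH.posDef z).isHermitian
  obtain ⟨_, _, e3⟩ := pointwise (A := A) (hH.posDef z) (hermitian_h1 hs hherm 1 z)
    (hermitian_h1 hs hherm Complex.I z) (equation hH z)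
  have e4 : 4 / (n : ℝ) ^ 3 * (sN A H z * (sN A H z - lsq A) ^ 2) =
      (4 * (sN A H z * (sN A H z - lsq A) ^ 2)) / (n : ℝ) ^ 3 := by ring
  rw [e4, div_le_iff₀ hn3, mul_comm _ ((n : ℝ) ^ 3)]
  refine e3.trans (le_of_eq ?_)
  congr 1
  simp only [hvv, Bool.false_eq_true, if_false, if_true]
  congr 1
  rw [← Complex.add_re]
  unfold sN
  congr 2
  rw [Matrix.mul_add, Matrix.add_mul, Matrix.trace_add]
  ring

/-- a non semisimple constant Higgs field -/
theorem lt_of_double {H : Matrix (Fin n) (Fin n) ℂ} (hH : H.PosDef) (c : ℂ)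
    (h2 : 2 ≤ A.charpoly.roots.count c)
    (h1 : ∀ v w : Fin n → ℂ, A *ᵥ v = c • v → A *ᵥ w = c • w →
      ∃ a b : ℂ, (a ≠ 0 ∨ b ≠ 0) ∧ a • v + b • w = 0) :
    lsq A < (A * ad A H).trace.re := by
  obtain ⟨Q, R, hQR, hRQ, hQ, hR⟩ := exists_Q hH
  obtain ⟨At, hAt⟩ : ∃ At, At = Q * A * R := ⟨_, rfl⟩
  have hch : At.charpoly = A.charpoly := by
    rw [hAt, Matrix.charpoly_mul_comm, ← Matrix.mul_assoc, hRQ, Matrix.one_mul]
  have e1 : (A * ad A H).trace.re = fsq At := by
    rw [fsq_eq_trace]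
    congr 1
    unfold ad
    rw [hR, hQ, hAt, Matrix.conjTranspose_mul, Matrix.conjTranspose_mul]
    have e2 : A * (R * Rᴴ * Aᴴ * (Qᴴ * Q)) = (A * R * (Rᴴ * (Aᴴ * Qᴴ))) * Q := by
      simp only [Matrix.mul_assoc]
    rw [e2, Matrix.trace_mul_comm]
    simp only [Matrix.mul_assoc]
  have e3 : lsq A = lsq At := by
    unfold lsq
    rw [hch]
  rw [e1, e3]
  apply strict_ineq At c (by rw [hch]; exact h2)
  intro v w hv hw
  have key : ∀ v : Fin n → ℂ, At *ᵥ v = c • v → A *ᵥ (R *ᵥ v) = c • (R *ᵥ v) := by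
    intro v hv
    have e4 : A * R = R * At := by
      rw [hAt, ← Matrix.mul_assoc, ← Matrix.mul_assoc, hRQ, Matrix.one_mul]
    rw [Matrix.mulVec_mulVec, e4, ← Matrix.mulVec_mulVec, hv, Matrix.mulVec_smul]
  obtain ⟨a, b, hab, h⟩ := h1 _ _ (key v hv) (key w hw)
  refine ⟨a, b, hab, ?_⟩
  rw [← Matrix.mulVec_smul, ← Matrix.mulVec_smul, ← Matrix.mulVec_add] at h
  have := congrArg (fun v => Q *ᵥ v) h
  simpa [Matrix.mulVec_mulVec, hQR] using this

/-- **A constant Higgs field with a multiple eigenvalue whose eigenspace is a line admits no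
harmonic metric over the plane.** -/
theorem no_metric (hH : IsHarmonicMetric (fun _ => A) H) (c : ℂ)
    (h2 : 2 ≤ A.charpoly.roots.count c)
    (h1 : ∀ v w : Fin n → ℂ, A *ᵥ v = c • v → A *ᵥ w = c • w →
      ∃ a b : ℂ, (a ≠ 0 ∨ b ≠ 0) ∧ a • v + b • w = 0) : False :=
  no_metric_of_lt hH (lt_of_double (hH.posDef 0) c h2 h1)

end

end Pool.Agent.T6.H33.HM
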