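import Pool.Agent.T6.H33.HM.Calc

/-!
# The pointwise inequality
-/

set_option autoImplicit false

open Matrix Finset
open scoped ComplexOrder

namespace Pool.Agent.T6.H33.HM

variable {n : ℕ}

theorem trace_identity (A D X Y W C : Matrix (Fin n) (Fin n) ℂ) (hC : C = A * D - D * A)
    (hW : W = (4 : ℂ) • C + X * X + Y * Y - Complex.I • (X * Y - Y * X)) :
    ((W * C).trace + (2 * (X * X * (D * A)).trace - 2 * (A * X * (D * X)).trace) +
      (2 * (Y * Y * (D * A)).trace - 2 * (A * Y * (D * Y)).trace)) =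
    4 * (C * C).trace + (((X - Complex.I • Y) * A - A * (X - Complex.I • Y)) *
      (D * (X + Complex.I • Y) - (X + Complex.I • Y) * D)).trace := by
  have hI : Complex.I * Complex.I = -1 := Complex.I_mul_I
  -- the second term on the right
  have h1 : ∀ P P' : Matrix (Fin n) (Fin n) ℂ,
      ((P * A - A * P) * (D * P' - P' * D)).trace =
        (P' * P * (A * D)).trace + (P * P' * (D * A)).trace -
          (A * P' * (D * P)).trace - (A * P * (D * P')).trace := by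
    intro P P'
    rw [Matrix.sub_mul, Matrix.mul_sub, Matrix.mul_sub]
    simp only [Matrix.trace_sub]
    have e1 : (P * A * (D * P')).trace = (P' * P * (A * D)).trace := by
      have : P * A * (D * P') = (P * (A * D)) * P' := by simp only [Matrix.mul_assoc]
      rw [this, Matrix.trace_mul_comm, ← Matrix.mul_assoc]
    have e2 : (P * A * (P' * D)).trace = (A * P' * (D * P)).trace := by
      have : P * A * (P' * D) = P * (A * P' * D) := by simp only [Matrix.mul_assoc]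
      rw [this, Matrix.trace_mul_comm]
      simp only [Matrix.mul_assoc]
    have e3 : (A * P * (P' * D)).trace = (P * P' * (D * A)).trace := by
      have : A * P * (P' * D) = A * (P * P' * D) := by simp only [Matrix.mul_assoc]
      rw [this, Matrix.trace_mul_comm]
      simp only [Matrix.mul_assoc]
    rw [e1, e2, e3]
    ring
  rw [h1, hW]
  rw [hC]
  simp only [Matrix.add_mul, Matrix.mul_add, Matrix.sub_mul, Matrix.mul_sub, Matrix.smul_mul,
    Matrix.mul_smul, Matrix.trace_add, Matrix.trace_sub, Matrix.trace_smul, smul_eq_mul, smul_add,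
    smul_sub, smul_smul]
  ring_nf
  simp only [Complex.I_sq]
  ring

theorem fsq_eq_trace (M : Matrix (Fin n) (Fin n) ℂ) : fsq M = (M * Mᴴ).trace.re := by
  rw [trace_mul_conjTranspose, Complex.ofReal_re]

theorem cauchy_schwarz (M N : Matrix (Fin n) (Fin n) ℂ) :
    Complex.normSq (M * Nᴴ).trace ≤ fsq M * fsq N := by
  have h1 : (M * Nᴴ).trace = ∑ p : Fin n × Fin n, M p.1 p.2 * star (N p.1 p.2) := by
    rw [Fintype.sum_prod_type]
    unfold Matrix.trace
    refine sum_congr rfl fun i _ => ?_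
    rw [Matrix.diag_apply, Matrix.mul_apply]
    rfl
  have h2 : ‖(M * Nᴴ).trace‖ ≤ ∑ p : Fin n × Fin n, ‖M p.1 p.2‖ * ‖N p.1 p.2‖ := by
    rw [h1]
    refine (norm_sum_le _ _).trans (le_of_eq (sum_congr rfl fun p _ => ?_))
    rw [norm_mul, norm_star]
  have h3 : ∀ K : Matrix (Fin n) (Fin n) ℂ, fsq K = ∑ p : Fin n × Fin n, ‖K p.1 p.2‖ ^ 2 := by
    intro K
    unfold fsq
    rw [Fintype.sum_prod_type]
    refine sum_congr rfl fun i _ => sum_congr rfl fun j _ => ?_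
    rw [Complex.normSq_eq_norm_sq]
  rw [Complex.normSq_eq_norm_sq, h3, h3]
  calc ‖(M * Nᴴ).trace‖ ^ 2 ≤ (∑ p : Fin n × Fin n, ‖M p.1 p.2‖ * ‖N p.1 p.2‖) ^ 2 :=
        pow_le_pow_left₀ (norm_nonneg _) h2 2
    _ ≤ _ := sum_mul_sq_le_sq_mul_sq _ _ _

open scoped MatrixOrder in
/-- a square root of a positive definite matrix -/
theorem exists_Q {H : Matrix (Fin n) (Fin n) ℂ} (hH : H.PosDef) :
    ∃ Q R : Matrix (Fin n) (Fin n) ℂ, Q * R = 1 ∧ R * Q = 1 ∧ H = Qᴴ * Q ∧ H⁻¹ = R * Rᴴ := by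
  obtain ⟨Q, hQ⟩ := CStarAlgebra.nonneg_iff_eq_star_mul_self.mp hH.posSemidef.nonneg
  rw [Matrix.star_eq_conjTranspose] at hQ
  have hdet : IsUnit Q.det := by
    have h1 : IsUnit H.det := (Matrix.isUnit_iff_isUnit_det _).1 hH.isUnit
    rw [hQ, Matrix.det_mul] at h1
    exact isUnit_of_mul_isUnit_right h1
  refine ⟨Q, Q⁻¹, Matrix.mul_nonsing_inv _ hdet, Matrix.nonsing_inv_mul _ hdet, hQ, ?_⟩
  rw [hQ, Matrix.mul_inv_rev, Matrix.conjTranspose_nonsing_inv]

/-- The pointwise inequality. -/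
theorem pointwise {A H Hx Hy W : Matrix (Fin n) (Fin n) ℂ} (hH : H.PosDef) (hx : Hxᴴ = Hx)
    (hy : Hyᴴ = Hy)
    (hW : H⁻¹ * W = (4 : ℂ) • cc A H + (H⁻¹ * Hx) * (H⁻¹ * Hx) + (H⁻¹ * Hy) * (H⁻¹ * Hy) -
      Complex.I • ((H⁻¹ * Hx) * (H⁻¹ * Hy) - (H⁻¹ * Hy) * (H⁻¹ * Hx))) :
    (A * ad A H).trace.re = (A * ad A H).trace.re ∧
    lsq A ≤ (A * ad A H).trace.re ∧
    4 * ((A * ad A H).trace.re * ((A * ad A H).trace.re - lsq A) ^ 2) ≤
      (n : ℝ) ^ 3 * ((A * ad A H).trace.re *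
        ((H⁻¹ * W * cc A H).trace +
          (2 * ((H⁻¹ * Hx) * (H⁻¹ * Hx) * (ad A H * A)).trace -
            2 * (A * (H⁻¹ * Hx) * (ad A H * (H⁻¹ * Hx))).trace) +
          (2 * ((H⁻¹ * Hy) * (H⁻¹ * Hy) * (ad A H * A)).trace -
            2 * (A * (H⁻¹ * Hy) * (ad A H * (H⁻¹ * Hy))).trace)).re -
        (((H⁻¹ * Hx) * cc A H).trace.re ^ 2 + ((H⁻¹ * Hy) * cc A H).trace.re ^ 2)) := by
  refine ⟨rfl, ?_⟩
  obtain ⟨Q, R, hQR, hRQ, hQ, hR⟩ := exists_Q hH
  -- conjugation by `Q`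
  set X := H⁻¹ * Hx with hX
  set Y := H⁻¹ * Hy with hY
  set D := ad A H with hD
  set C := cc A H with hC
  have hCe : C = A * D - D * A := rfl
  have conj_mul : ∀ M N : Matrix (Fin n) (Fin n) ℂ, Q * (M * N) * R = (Q * M * R) * (Q * N * R) := by
    intro M N
    calc Q * (M * N) * R = Q * M * 1 * N * R := by
          rw [Matrix.mul_one]; simp only [Matrix.mul_assoc]
      _ = _ := by rw [← hRQ]; simp only [Matrix.mul_assoc]
  have conj_trace : ∀ M : Matrix (Fin n) (Fin n) ℂ, (Q * M * R).trace = M.trace := by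
    intro M
    rw [Matrix.mul_assoc, Matrix.trace_mul_comm, Matrix.mul_assoc, hRQ, Matrix.mul_one]
  have hQRs : Rᴴ * Qᴴ = 1 := by
    rw [← Matrix.conjTranspose_mul, hQR, Matrix.conjTranspose_one]
  obtain ⟨At, hAt⟩ : ∃ At, At = Q * A * R := ⟨_, rfl⟩
  have hDt : Q * D * R = Atᴴ := by
    rw [hD, hAt]
    unfold ad
    rw [hR, hQ, Matrix.conjTranspose_mul, Matrix.conjTranspose_mul]
    calc Q * (R * Rᴴ * Aᴴ * (Qᴴ * Q)) * R = (Q * R) * Rᴴ * Aᴴ * Qᴴ * (Q * R) := by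
          simp only [Matrix.mul_assoc]
      _ = _ := by rw [hQR, Matrix.one_mul, Matrix.mul_one]; simp only [Matrix.mul_assoc]
  have herm : ∀ Z : Matrix (Fin n) (Fin n) ℂ, Zᴴ = Z → (Q * (H⁻¹ * Z) * R)ᴴ = Q * (H⁻¹ * Z) * R := by
    intro Z hZ
    have : Q * (H⁻¹ * Z) * R = Rᴴ * Z * R := by
      rw [hR]
      calc Q * (R * Rᴴ * Z) * R = (Q * R) * Rᴴ * Z * R := by simp only [Matrix.mul_assoc]
        _ = _ := by rw [hQR, Matrix.one_mul]
    rw [this, Matrix.conjTranspose_mul, Matrix.conjTranspose_mul, Matrix.conjTranspose_conjTranspose,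
      hZ]
    simp only [Matrix.mul_assoc]
  obtain ⟨Xt, hXt⟩ : ∃ Xt, Xt = Q * X * R := ⟨_, rfl⟩
  obtain ⟨Yt, hYt⟩ : ∃ Yt, Yt = Q * Y * R := ⟨_, rfl⟩
  have hXth : Xtᴴ = Xt := by
    rw [hXt]
    exact herm Hx hx
  have hYth : Ytᴴ = Yt := by
    rw [hYt]
    exact herm Hy hy
  have hCt : Q * C * R = cm At := by
    rw [hCe, Matrix.mul_sub, Matrix.sub_mul, conj_mul, conj_mul, hDt, ← hAt]
    rfl
  have hcmh : (cm At)ᴴ = cm At := by
    unfold cm
    rw [Matrix.conjTranspose_sub, Matrix.conjTranspose_mul, Matrix.conjTranspose_mul,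
      Matrix.conjTranspose_conjTranspose]
  -- s
  have hs : (A * D).trace = (fsq At : ℂ) := by
    rw [← conj_trace, conj_mul, hDt, ← hAt, trace_mul_conjTranspose]
  have hs' : (A * D).trace.re = fsq At := by rw [hs, Complex.ofReal_re]
  have hl : lsq At = lsq A := by
    unfold lsq
    have : At.charpoly = A.charpoly := by
      rw [hAt, Matrix.charpoly_mul_comm, ← Matrix.mul_assoc, hRQ, Matrix.one_mul]
    rw [this]
  obtain ⟨c1, c2⟩ := comm_ineq At
  rw [hl] at c1 c2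
  refine ⟨by rw [hs']; exact c1, ?_⟩
  -- C²
  have hCC : (C * C).trace = (fsq (cm At) : ℂ) := by
    rw [← conj_trace, conj_mul, hCt, ← trace_mul_conjTranspose, hcmh]
  -- B
  obtain ⟨P, hP⟩ : ∃ P, P = X - Complex.I • Y := ⟨_, rfl⟩
  obtain ⟨P', hP'⟩ : ∃ P', P' = X + Complex.I • Y := ⟨_, rfl⟩
  obtain ⟨Bt, hBt⟩ : ∃ Bt, Bt = (Xt - Complex.I • Yt) * At - At * (Xt - Complex.I • Yt) := ⟨_, rfl⟩
  have hPt : Q * P * R = Xt - Complex.I • Yt := by
    rw [hP, Matrix.mul_sub, Matrix.sub_mul, Matrix.mul_smul, Matrix.smul_mul, ← hXt, ← hYt]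
  have hPt' : Q * P' * R = (Xt - Complex.I • Yt)ᴴ := by
    rw [hP', Matrix.mul_add, Matrix.add_mul, Matrix.mul_smul, Matrix.smul_mul,
      Matrix.conjTranspose_sub, Matrix.conjTranspose_smul, hXth, hYth, ← hXt, ← hYt]
    simp
  have hB1 : Q * (P * A - A * P) * R = Bt := by
    rw [Matrix.mul_sub, Matrix.sub_mul, conj_mul, conj_mul, hPt, ← hAt, hBt]
  have hB2 : Q * (D * P' - P' * D) * R = Btᴴ := by
    rw [Matrix.mul_sub, Matrix.sub_mul, conj_mul, conj_mul, hPt', hDt, hBt]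
    simp only [Matrix.conjTranspose_sub, Matrix.conjTranspose_mul]
  have hBB : ((P * A - A * P) * (D * P' - P' * D)).trace = (fsq Bt : ℂ) := by
    rw [← conj_trace, conj_mul, hB1, hB2, trace_mul_conjTranspose]
  have hid := trace_identity A D X Y (H⁻¹ * W) C hCe hW
  rw [hid, hCC, ← hP, ← hP', hBB]
  -- gradient
  have hXC : (X * C).trace = (Xt * cm At).trace := by
    rw [← conj_trace, conj_mul, hCt, ← hXt]
  have hYC : (Y * C).trace = (Yt * cm At).trace := by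
    rw [← conj_trace, conj_mul, hCt, ← hYt]
  have hreal : ∀ Z : Matrix (Fin n) (Fin n) ℂ, Zᴴ = Z → (Z * cm At).trace.im = 0 := by
    intro Z hZ
    have h1 : star (Z * cm At).trace = (Z * cm At).trace := by
      rw [← Matrix.trace_conjTranspose, Matrix.conjTranspose_mul, hZ, hcmh, Matrix.trace_mul_comm]
    exact Complex.conj_eq_iff_im.1 h1
  have hPC : ((Xt - Complex.I • Yt) * cm At).trace = (Bt * Atᴴ).trace := by
    rw [hBt]
    unfold cm
    obtain ⟨Z, hZ⟩ : ∃ Z, Z = Xt - Complex.I • Yt := ⟨_, rfl⟩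
    rw [← hZ, Matrix.mul_sub, Matrix.sub_mul, Matrix.trace_sub, Matrix.trace_sub]
    congr 1
    · rw [Matrix.mul_assoc]
    · rw [← Matrix.mul_assoc, Matrix.trace_mul_comm, ← Matrix.mul_assoc]
  have hgrad : (X * C).trace.re ^ 2 + (Y * C).trace.re ^ 2 ≤ fsq Bt * fsq At := by
    have h1 := cauchy_schwarz Bt At
    rw [← hPC] at h1
    have h2 : Complex.normSq ((Xt - Complex.I • Yt) * cm At).trace =
        (X * C).trace.re ^ 2 + (Y * C).trace.re ^ 2 := by
      rw [Matrix.sub_mul, Matrix.trace_sub, Matrix.smul_mul, Matrix.trace_smul, hXC, hYC,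
        Complex.normSq_apply]
      have e1 := hreal Xt hXth
      have e2 := hreal Yt hYth
      simp only [Complex.sub_re, Complex.sub_im, smul_eq_mul, Complex.mul_re, Complex.mul_im,
        Complex.I_re, Complex.I_im, e1, e2]
      ring
    rw [h2] at h1
    exact h1
  rw [hs']
  have e3 : (4 * (fsq (cm At) : ℂ) + (fsq Bt : ℂ)).re = 4 * fsq (cm At) + fsq Bt := by
    simp
  rw [e3]
  have f0 : 0 ≤ fsq At := fsq_nonneg _
  have n0 : (0 : ℝ) ≤ (n : ℝ) ^ 3 := by positivity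
  calc 4 * (fsq At * (fsq At - lsq A) ^ 2) ≤ 4 * (fsq At * ((n : ℝ) ^ 3 * fsq (cm At))) := by gcongr
    _ = (n : ℝ) ^ 3 * (fsq At * (4 * fsq (cm At) + fsq Bt) - fsq Bt * fsq At) := by ring
    _ ≤ _ := by
        apply mul_le_mul_of_nonneg_left _ n0
        linarith

end Pool.Agent.T6.H33.HM
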