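import Mathlib

/-!
# Schur triangularisation and the commutator of a matrix with its adjoint
-/

set_option autoImplicit false

open Matrix

namespace Pool.Agent.T6.H33.HM

/-- enlarging an invariant subspace by one dimension -/
theorem step {V : Type} [AddCommGroup V] [Module ℂ V] [FiniteDimensional ℂ V]
    (f : V →ₗ[ℂ] V) (W : Submodule ℂ V) (hW : ∀ v ∈ W, f v ∈ W) (hne : W ≠ ⊤) :
    ∃ W' : Submodule ℂ V, W ≤ W' ∧ (∀ v ∈ W', f v ∈ W') ∧
      Module.finrank ℂ W' = Module.finrank ℂ W + 1 := by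
  have hnt : Nontrivial (V ⧸ W) := Submodule.Quotient.nontrivial_iff.2 hne
  have hle : W ≤ W.comap f := fun v hv => hW v hv
  obtain ⟨c, hc⟩ := Module.End.exists_eigenvalue (W.mapQ W f hle : Module.End ℂ (V ⧸ W))
  obtain ⟨vb, hvb⟩ := hc.exists_hasEigenvector
  obtain ⟨v, rfl⟩ := Submodule.mkQ_surjective W vb
  have h1 : W.mkQ (f v) = c • W.mkQ v := hvb.apply_eq_smul
  have h2 : W.mkQ v ≠ 0 := hvb.2
  have hv : v ∉ W := by
    intro h
    apply h2
    rw [Submodule.mkQ_apply, Submodule.Quotient.mk_eq_zero]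
    exact h
  have h3 : f v - c • v ∈ W := by
    rw [← Submodule.Quotient.mk_eq_zero, ← Submodule.mkQ_apply, map_sub, map_smul, h1, sub_self]
  refine ⟨W ⊔ Submodule.span ℂ {v}, le_sup_left, ?_, ?_⟩
  · intro u hu
    rw [Submodule.mem_sup] at hu ⊢
    obtain ⟨x, hx, y, hy, rfl⟩ := hu
    rw [Submodule.mem_span_singleton] at hy
    obtain ⟨d, rfl⟩ := hy
    refine ⟨f x + d • (f v - c • v), W.add_mem (hW x hx) (W.smul_mem _ h3), (d * c) • v,
      Submodule.smul_mem _ _ (Submodule.mem_span_singleton_self v), ?_⟩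
    rw [map_add, map_smul, smul_sub, smul_smul]
    abel
  · have h4 := Submodule.finrank_sup_add_finrank_inf_eq W (Submodule.span ℂ {v})
    have h5 : W ⊓ Submodule.span ℂ {v} = ⊥ := by
      rw [eq_bot_iff]
      rintro u ⟨hu1, hu2⟩
      rw [SetLike.mem_coe, Submodule.mem_span_singleton] at hu2
      obtain ⟨d, rfl⟩ := hu2
      rw [Submodule.mem_bot]
      by_contra hd
      apply hv
      have hd' : d ≠ 0 := by
        rintro rfl
        exact hd (zero_smul _ _)
      have := W.smul_mem d⁻¹ hu1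
      rwa [smul_smul, inv_mul_cancel₀ hd', one_smul] at this
    have h6 : v ≠ 0 := by
      rintro rfl
      exact hv W.zero_mem
    rw [h5, finrank_bot, finrank_span_singleton h6, add_zero] at h4
    exact h4

/-- an invariant flag -/
theorem flag {V : Type} [AddCommGroup V] [Module ℂ V] [FiniteDimensional ℂ V]
    (f : V →ₗ[ℂ] V) : ∃ F : ℕ → Submodule ℂ V, Monotone F ∧ (∀ i, ∀ v ∈ F i, f v ∈ F i) ∧
      ∀ i ≤ Module.finrank ℂ V, Module.finrank ℂ (F i) = i := by
  classical
  have hstep : ∀ W : {W : Submodule ℂ V // ∀ v ∈ W, f v ∈ W},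
      ∃ W' : {W : Submodule ℂ V // ∀ v ∈ W, f v ∈ W}, W.1 ≤ W'.1 ∧
        (W.1 ≠ ⊤ → Module.finrank ℂ W'.1 = Module.finrank ℂ W.1 + 1) := by
    rintro ⟨W, hW⟩
    by_cases h : W = ⊤
    · exact ⟨⟨W, hW⟩, le_rfl, fun h' => absurd h h'⟩
    · obtain ⟨W', h1, h2, h3⟩ := step f W hW h
      exact ⟨⟨W', h2⟩, h1, fun _ => h3⟩
  choose nx h1 h2 using hstep
  let F : ℕ → {W : Submodule ℂ V // ∀ v ∈ W, f v ∈ W} := fun i =>
    Nat.rec ⟨⊥, by
      intro v hv
      rw [Submodule.mem_bot] at hv ⊢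
      rw [hv, map_zero]⟩ (fun _ W => nx W) i
  have hF0 : (F 0).1 = ⊥ := rfl
  have hFs : ∀ i, F (i + 1) = nx (F i) := fun _ => rfl
  refine ⟨fun i => (F i).1, monotone_nat_of_le_succ fun i => ?_, fun i => (F i).2, ?_⟩
  · rw [hFs]
    exact h1 _
  · intro i
    induction i with
    | zero =>
      intro _
      show Module.finrank ℂ (F 0).1 = 0
      rw [hF0, finrank_bot]
    | succ i ih =>
      intro hi
      show Module.finrank ℂ (F (i + 1)).1 = i + 1
      have h3 := ih (by omega)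
      rw [hFs, h2 _ _, h3]
      intro h4
      have h5 : Module.finrank ℂ (F i).1 = i := h3
      rw [h4, finrank_top] at h5
      omega

/-- an orthonormal basis adapted to a flag -/
theorem onb (n : ℕ) (F : ℕ → Submodule ℂ (Fin n → ℂ)) (hF : Monotone F)
    (hdim : ∀ i ≤ n, Module.finrank ℂ (F i) = i) :
    ∃ U : Matrix (Fin n) (Fin n) ℂ, U.conjTranspose * U = 1 ∧ U * U.conjTranspose = 1 ∧
      ∀ i ≤ n, ∀ v, v ∈ F i ↔ ∀ j : Fin n, i ≤ (j : ℕ) → (U.conjTranspose.mulVec v) j = 0 := by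
  classical
  let L : (Fin n → ℂ) ≃ₗ[ℂ] EuclideanSpace ℂ (Fin n) := (WithLp.linearEquiv 2 ℂ (Fin n → ℂ)).symm
  let F' : ℕ → Submodule ℂ (EuclideanSpace ℂ (Fin n)) := fun i => (F i).map (L : (Fin n → ℂ) →ₗ[ℂ] _)
  have hF' : Monotone F' := fun i j h => Submodule.map_mono (hF h)
  have hdim' : ∀ i ≤ n, Module.finrank ℂ (F' i) = i := by
    intro i hi
    exact (LinearEquiv.finrank_map_eq L (F i)).trans (hdim i hi)
  have hex : ∀ i : Fin n, ∃ f : EuclideanSpace ℂ (Fin n), ‖f‖ = 1 ∧ f ∈ F' ((i : ℕ) + 1) ∧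
      f ∈ (F' i)ᗮ := by
    intro i
    have h1 := Submodule.finrank_add_inf_finrank_orthogonal (hF' (Nat.le_succ (i : ℕ)))
    rw [hdim' i i.2.le, hdim' _ i.2] at h1
    have h2 : 0 < Module.finrank ℂ ((F' i)ᗮ ⊓ F' (Nat.succ i) : Submodule ℂ _) := by
      omega
    haveI : Nontrivial ((F' i)ᗮ ⊓ F' (Nat.succ i) : Submodule ℂ _) :=
      Module.finrank_pos_iff.1 h2
    obtain ⟨⟨v, hv⟩, hv0⟩ := exists_ne (0 : ((F' i)ᗮ ⊓ F' (Nat.succ i) : Submodule ℂ _))
    have hv0' : v ≠ 0 := fun h => hv0 (Subtype.ext h)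
    refine ⟨((‖v‖⁻¹ : ℝ) : ℂ) • v, ?_, ?_, ?_⟩
    · rw [norm_smul, Complex.norm_real, norm_inv, norm_norm,
        inv_mul_cancel₀ (norm_ne_zero_iff.2 hv0')]
    · exact Submodule.smul_mem _ _ hv.2
    · exact Submodule.smul_mem _ _ hv.1
  choose f hf1 hf2 hf3 using hex
  have horth : ∀ i j : Fin n, i < j → inner ℂ (f i) (f j) = (0 : ℂ) := by
    intro i j hij
    have h1 : f i ∈ F' j := hF' (by exact Nat.succ_le_of_lt hij) (hf2 i)
    exact (Submodule.mem_orthogonal _ _).1 (hf3 j) _ h1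
  let U : Matrix (Fin n) (Fin n) ℂ := fun p j => f j p
  have hinner : ∀ (i : Fin n) (v : Fin n → ℂ), (U.conjTranspose.mulVec v) i = inner ℂ (f i) (L v) := by
    intro i v
    rw [PiLp.inner_apply]
    unfold Matrix.mulVec dotProduct
    apply Finset.sum_congr rfl
    intro p _
    simp only [Matrix.conjTranspose_apply, RCLike.inner_apply, U]
    rw [mul_comm]
    rfl
  have hUU : U.conjTranspose * U = 1 := by
    ext i j
    have h1 : (U.conjTranspose * U) i j = inner ℂ (f i) (f j) := by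
      have := hinner i (fun p => f j p)
      rw [Matrix.mul_apply]
      unfold Matrix.mulVec dotProduct at this
      rw [this]
      rfl
    rw [h1, Matrix.one_apply]
    split_ifs with hij
    · subst hij
      rw [inner_self_eq_norm_sq_to_K, hf1]
      simp
    · rcases lt_or_gt_of_ne hij with h | h
      · exact horth i j h
      · rw [← inner_conj_symm, horth j i h, map_zero]
  have hUU' : U * U.conjTranspose = 1 := mul_eq_one_comm.1 hUU
  refine ⟨U, hUU, hUU', ?_⟩
  intro i hi v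
  constructor
  · intro hv j hj
    rw [hinner]
    have h1 : L v ∈ F' j := hF' hj (Submodule.mem_map_of_mem hv)
    have h2 := (Submodule.mem_orthogonal _ _).1 (hf3 j) _ h1
    rw [← inner_conj_symm, h2, map_zero]
  · intro hv
    have h1 : v = U.mulVec (U.conjTranspose.mulVec v) := by
      rw [Matrix.mulVec_mulVec, hUU', Matrix.one_mulVec]
    rw [h1]
    have h2 : U.mulVec (U.conjTranspose.mulVec v) =
        ∑ j : Fin n, (U.conjTranspose.mulVec v) j • (fun p => f j p) := by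
      funext p
      rw [Finset.sum_apply]
      unfold Matrix.mulVec dotProduct
      apply Finset.sum_congr rfl
      intro j _
      simp only [Pi.smul_apply, smul_eq_mul, U]
      rw [mul_comm]
    rw [h2]
    apply Submodule.sum_mem
    intro j _
    by_cases hj : i ≤ (j : ℕ)
    · rw [hv j hj, zero_smul]
      exact Submodule.zero_mem _
    · apply Submodule.smul_mem
      obtain ⟨w, hw1, hw2⟩ := hf2 j
      have h3 : (fun p => f j p) = w := by
        funext p
        rw [← hw2]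
        rfl
      rw [h3]
      exact hF (by omega) hw1

/-- Schur triangularisation. -/
theorem schur {n : ℕ} (A : Matrix (Fin n) (Fin n) ℂ) :
    ∃ U : Matrix (Fin n) (Fin n) ℂ, Uᴴ * U = 1 ∧ U * Uᴴ = 1 ∧
      (∀ i j : Fin n, j < i → (Uᴴ * A * U) i j = 0) ∧
      A.charpoly.roots = Multiset.map (fun i => (Uᴴ * A * U) i i) Finset.univ.val := by
  obtain ⟨F, hF1, hF2, hF3⟩ := flag A.mulVecLin
  have hdim : Module.finrank ℂ (Fin n → ℂ) = n := by
    rw [Module.finrank_fintype_fun_eq_card, Fintype.card_fin]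
  rw [hdim] at hF3
  obtain ⟨U, hU1, hU2, hU3⟩ := onb n F hF1 hF3
  have hut : ∀ i j : Fin n, j < i → (Uᴴ * A * U) i j = 0 := by
    intro i j hij
    have h1 : U.mulVec (Pi.single j 1) ∈ F ((j : ℕ) + 1) := by
      rw [hU3 _ j.2]
      intro k hk
      rw [Matrix.mulVec_mulVec, hU1, Matrix.one_mulVec, Pi.single_eq_of_ne]
      intro h
      rw [h] at hk
      omega
    have h2 := (hU3 _ j.2 _).1 (hF2 _ _ h1) i hij
    rw [Matrix.mulVecLin_apply, Matrix.mulVec_mulVec, Matrix.mulVec_mulVec,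
      Matrix.mulVec_single_one] at h2
    exact h2
  refine ⟨U, hU1, hU2, hut, ?_⟩
  have hch : A.charpoly = (Uᴴ * A * U).charpoly := by
    rw [Matrix.charpoly_mul_comm, ← Matrix.mul_assoc, hU2, Matrix.one_mul]
  have hbt : (Uᴴ * A * U).BlockTriangular id := fun i j h => hut i j h
  rw [hch, Matrix.charpoly_of_upperTriangular _ hbt]
  have h6 : ∏ i, (Polynomial.X - Polynomial.C ((Uᴴ * A * U) i i)) =
      ((Multiset.map (fun i => (Uᴴ * A * U) i i) Finset.univ.val).map
        (fun x => Polynomial.X - Polynomial.C x)).prod := by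
    rw [Multiset.map_map]
    rfl
  rw [h6, Polynomial.roots_multiset_prod_X_sub_C]

end Pool.Agent.T6.H33.HM
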